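import Mathlib
import Pool.Agent.H738R2.CylStmt

set_option autoImplicit false

/-! Chords of a strictly convex curve: angles and their expansions. -/

namespace Pool.Agent.X146.Cap

open Set Topology Filter Complex Asymptotics
open scoped ComplexConjugate
open Pool.Agent.H738R2.Cyl

noncomputable def A0 (γ : ℝ → ℂ) (s s₁ : ℝ) : ℂ := conj (deriv γ s) * (γ s₁ - γ s)

noncomputable def A1 (γ : ℝ → ℂ) (s s₁ : ℝ) : ℂ := conj (deriv γ s₁) * (γ s₁ - γ s)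

variable {γ : ℝ → ℂ} {L : ℝ}

section basic

variable (h : StrictlyConvexCurve γ L)
include h

lemma gne {s s₁ : ℝ} (h1 : s < s₁) (h2 : s₁ < s + L) : γ s₁ ≠ γ s := by
  intro he
  have h3 := h.coe_eq he
  rw [← sub_eq_zero, ← AddCircle.coe_sub, AddCircle.coe_eq_zero_iff] at h3
  obtain ⟨n, hn⟩ := h3
  rw [zsmul_eq_mul] at hn
  have hL := h.length_pos
  have n1 : 0 < (n:ℝ) * L := by linarith
  have n2 : (n:ℝ) * L < L := by linarith
  have n3 : (0:ℝ) < n := pos_of_mul_pos_left n1 hL.le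
  have n4 : (n:ℝ) < 1 := by
    by_contra hc
    push Not at hc
    nlinarith
  have n5 : (0:ℤ) < n := by exact_mod_cast n3
  have n6 : (n:ℤ) < 1 := by exact_mod_cast n4
  omega

lemma A0_im {s s₁ : ℝ} (h1 : s < s₁) (h2 : s₁ < s + L) : 0 < (A0 γ s s₁).im :=
  h.strictly_convex s s₁ (gne h h1 h2)

lemma A1_im {s s₁ : ℝ} (h1 : s < s₁) (h2 : s₁ < s + L) : (A1 γ s s₁).im < 0 := by
  have := h.strictly_convex s₁ s (gne h h1 h2).symm
  have e : conj (deriv γ s₁) * (γ s - γ s₁) = - A1 γ s s₁ := by unfold A1; ring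
  rw [e, neg_im] at this
  linarith

lemma norm_A0 (s s₁ : ℝ) : ‖A0 γ s s₁‖ = ‖γ s₁ - γ s‖ := by
  unfold A0; rw [norm_mul, RCLike.norm_conj, h.unit_speed, one_mul]

lemma norm_A1 (s s₁ : ℝ) : ‖A1 γ s s₁‖ = ‖γ s₁ - γ s‖ := by
  unfold A1; rw [norm_mul, RCLike.norm_conj, h.unit_speed, one_mul]

lemma conj_mul_self (s : ℝ) : conj (deriv γ s) * deriv γ s = 1 := by
  rw [mul_comm, mul_conj, normSq_eq_norm_sq, h.unit_speed]; norm_num

end basic

/-- the angle at the start of the chord -/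
noncomputable def al (γ : ℝ → ℂ) (s s₁ : ℝ) : ℝ := arg (A0 γ s s₁)

/-- the angle at the end of the chord -/
noncomputable def al1 (γ : ℝ → ℂ) (s s₁ : ℝ) : ℝ := arg (conj (A1 γ s s₁))

lemma arg_mem {z : ℂ} (hz : 0 < z.im) : arg z ∈ Ioo (0:ℝ) Real.pi := by
  constructor
  · have := (arg_nonneg_iff (z := z)).mpr hz.le
    rcases this.lt_or_eq with h | h
    · exact h
    · exfalso
      have h2 : arg z = 0 := h.symm
      rw [arg_eq_zero_iff] at h2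
      linarith [h2.2]
  · exact lt_of_le_of_ne (arg_le_pi z) (fun h => by rw [arg_eq_pi_iff] at h; linarith [h.2])

lemma cot_arg {z : ℂ} (hz : z ≠ 0) : Real.cot (arg z) = z.re / z.im := by
  rw [Real.cot_eq_cos_div_sin, Complex.cos_arg hz, Complex.sin_arg]
  have : ‖z‖ ≠ 0 := norm_ne_zero_iff.mpr hz
  rcases eq_or_ne z.im 0 with h | h
  · simp [h]
  · field_simp

section basic2

variable (h : StrictlyConvexCurve γ L)
include h

lemma al_mem {s s₁ : ℝ} (h1 : s < s₁) (h2 : s₁ < s + L) : al γ s s₁ ∈ Ioo (0:ℝ) Real.pi :=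
  arg_mem (A0_im h h1 h2)

lemma al1_mem {s s₁ : ℝ} (h1 : s < s₁) (h2 : s₁ < s + L) : al1 γ s s₁ ∈ Ioo (0:ℝ) Real.pi :=
  arg_mem (by rw [conj_im]; linarith [A1_im h h1 h2])

lemma exp_al {s s₁ : ℝ} : ‖γ s₁ - γ s‖ * exp (al γ s s₁ * I) = A0 γ s s₁ := by
  rw [← norm_A0 h]
  exact norm_mul_exp_arg_mul_I _

lemma exp_al1 {s s₁ : ℝ} : ‖γ s₁ - γ s‖ * exp (-(al1 γ s s₁ * I)) = A1 γ s s₁ := by
  have h1 : ‖γ s₁ - γ s‖ * exp (al1 γ s s₁ * I) = conj (A1 γ s s₁) := by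
    rw [← norm_A1 h, ← RCLike.norm_conj]
    exact norm_mul_exp_arg_mul_I _
  have h2 := congrArg conj h1
  rw [conj_conj, map_mul, conj_ofReal, ← exp_conj, map_mul, conj_ofReal, conj_I] at h2
  rw [← h2]; ring_nf

lemma chord_of {s s₁ : ℝ} (h1 : s < s₁) (h2 : s₁ < s + L) :
    Chord γ s (al γ s s₁) s₁ (al1 γ s s₁) := by
  have hne : γ s₁ - γ s ≠ 0 := sub_ne_zero.mpr (gne h h1 h2)
  have hn : (0:ℝ) < ‖γ s₁ - γ s‖ := norm_pos_iff.mpr hne
  have hn' : (‖γ s₁ - γ s‖ : ℂ) ≠ 0 := by exact_mod_cast hn.ne'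
  have e0 : (‖γ s₁ - γ s‖ : ℂ) * (exp (al γ s s₁ * I) * deriv γ s) = γ s₁ - γ s := by
    rw [← mul_assoc, exp_al h]
    unfold A0
    linear_combination (γ s₁ - γ s) * conj_mul_self h s
  have e1 : (‖γ s₁ - γ s‖ : ℂ) * (exp (-(al1 γ s s₁ * I)) * deriv γ s₁) = γ s₁ - γ s := by
    rw [← mul_assoc, exp_al1 h]
    unfold A1
    linear_combination (γ s₁ - γ s) * conj_mul_self h s₁
  refine ⟨‖γ s₁ - γ s‖, hn, ?_, ?_⟩
  · rw [e0]; ring
  · exact mul_left_cancel₀ hn' (e0.trans e1.symm)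

lemma sin_sub {s s₁ : ℝ} : ‖γ s₁ - γ s‖ ^ 2 * Real.sin (al γ s s₁ - al1 γ s s₁)
    = (A0 γ s s₁ * A1 γ s s₁).im := by
  rw [← exp_al h, ← exp_al1 h]
  have : (‖γ s₁ - γ s‖ * exp (al γ s s₁ * I)) * (‖γ s₁ - γ s‖ * exp (-(al1 γ s s₁ * I)))
      = ((‖γ s₁ - γ s‖ ^ 2 : ℝ) : ℂ) * exp (((al γ s s₁ - al1 γ s s₁ : ℝ) : ℂ) * I) := by
    have : ((al γ s s₁ - al1 γ s s₁ : ℝ) : ℂ) * I = al γ s s₁ * I + -(al1 γ s s₁ * I) := by
      push_cast; ring
    rw [this, exp_add]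
    push_cast
    ring
  rw [this, im_ofReal_mul, exp_ofReal_mul_I_im]

lemma al_lt_al1 {s s₁ : ℝ} (h1 : s < s₁) (h2 : s₁ < s + L)
    (h3 : (A0 γ s s₁ * A1 γ s s₁).im < 0) : al γ s s₁ < al1 γ s s₁ := by
  rw [← sin_sub h] at h3
  by_contra hc
  push Not at hc
  have m0 := al_mem h h1 h2
  have m1 := al1_mem h h1 h2
  have : 0 ≤ Real.sin (al γ s s₁ - al1 γ s s₁) :=
    Real.sin_nonneg_of_nonneg_of_le_pi (by linarith) (by linarith [m0.2, m1.1])
  have : 0 ≤ ‖γ s₁ - γ s‖ ^ 2 * Real.sin (al γ s s₁ - al1 γ s s₁) := by positivity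
  linarith

lemma al1_lt_al {s s₁ : ℝ} (h1 : s < s₁) (h2 : s₁ < s + L)
    (h3 : 0 < (A0 γ s s₁ * A1 γ s s₁).im) : al1 γ s s₁ < al γ s s₁ := by
  rw [← sin_sub h] at h3
  by_contra hc
  push Not at hc
  have m0 := al_mem h h1 h2
  have m1 := al1_mem h h1 h2
  have : Real.sin (al γ s s₁ - al1 γ s s₁) ≤ 0 :=
    Real.sin_nonpos_of_nonpos_of_neg_pi_le (by linarith) (by linarith [m0.1, m1.2])
  have : 0 ≤ ‖γ s₁ - γ s‖ ^ 2 := by positivity
  nlinarith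

lemma cot_al1 {s s₁ : ℝ} (h1 : s < s₁) (h2 : s₁ < s + L) :
    Real.cot (al1 γ s s₁) = (A1 γ s s₁).re / (-(A1 γ s s₁).im) := by
  unfold al1
  rw [cot_arg, conj_re, conj_im]
  intro h0
  have := A1_im h h1 h2
  have h3 := congrArg Complex.im h0
  rw [conj_im, zero_im] at h3
  linarith

end basic2

/-! ### Derivatives -/

lemma smooth_deriv {f : ℝ → ℂ} (hf : ContDiff ℝ (⊤ : ℕ∞) f) : ContDiff ℝ (⊤ : ℕ∞) (deriv f) :=
  (contDiff_infty_iff_deriv.mp hf).2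

lemma smooth_hasDeriv {f : ℝ → ℂ} (hf : ContDiff ℝ (⊤ : ℕ∞) f) (x : ℝ) :
    HasDerivAt f (deriv f x) x :=
  ((contDiff_infty_iff_deriv.mp hf).1 x).hasDerivAt

/-- integrating a bound -/
lemma bigO_int {f g : ℝ → ℂ} (n : ℕ) (hf : ∀ x, HasDerivAt f (g x) x) (h0 : f 0 = 0)
    (hg : g =O[𝓝 0] fun x => x ^ n) : f =O[𝓝 0] fun x => x ^ (n + 1) := by
  obtain ⟨C, hC⟩ := hg.bound
  obtain ⟨δ, hδ, hb⟩ := Metric.eventually_nhds_iff.mp hC
  refine IsBigO.of_bound C ?_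
  refine Metric.eventually_nhds_iff.mpr ⟨δ, hδ, fun x hx => ?_⟩
  rw [Real.dist_eq, sub_zero] at hx
  have hC0 : ∀ y ∈ segment ℝ (0:ℝ) x, ‖g y‖ ≤ C * ‖x ^ n‖ := by
    intro y hy
    have hy' : |y| ≤ |x| := by
      rw [segment_eq_uIcc] at hy
      have := abs_sub_left_of_mem_uIcc hy
      simpa using this
    have h1 := hb (y := y) (by rw [Real.dist_eq, sub_zero]; linarith)
    refine h1.trans ?_
    have hCn : 0 ≤ C ∨ x ^ n = 0 := by
      by_contra hcon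
      push Not at hcon
      obtain ⟨c1, c2⟩ := hcon
      have := hb (y := x) (by rw [Real.dist_eq, sub_zero]; exact hx)
      have h3 : 0 < ‖x ^ n‖ := norm_pos_iff.mpr c2
      have := norm_nonneg (g x)
      nlinarith
    rcases hCn with hCn | hCn
    · apply mul_le_mul_of_nonneg_left _ hCn
      rw [norm_pow, norm_pow]
      exact pow_le_pow_left₀ (norm_nonneg _) hy' n
    · have hx0 : x = 0 := by
        rcases Nat.eq_zero_or_pos n with hn | hn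
        · subst hn; simp at hCn
        · exact (pow_eq_zero_iff hn.ne').mp hCn
      have hy0 : y = 0 := by rw [hx0, abs_zero] at hy'; exact abs_nonpos_iff.mp hy'
      rw [hy0, hx0]
  have := (convex_segment (𝕜 := ℝ) (0:ℝ) x).norm_image_sub_le_of_norm_hasDerivWithin_le
    (f := f) (f' := g) (fun y _ => (hf y).hasDerivWithinAt) hC0
    (left_mem_segment ℝ 0 x) (right_mem_segment ℝ 0 x)
  rw [h0, sub_zero, sub_zero] at this
  refine this.trans (le_of_eq ?_)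
  rw [norm_pow, norm_pow, pow_succ]; ring

lemma taylor1 {f : ℝ → ℂ} (hf : ContDiff ℝ (⊤ : ℕ∞) f) (s : ℝ) :
    (fun σ : ℝ => f (s + σ) - f s) =O[𝓝 0] fun x => x ^ 1 := by
  have h := (smooth_hasDeriv hf s).differentiableAt.isBigO_sub
  have h2 : Tendsto (fun σ : ℝ => s + σ) (𝓝 0) (𝓝 s) := by
    have : Continuous (fun σ : ℝ => s + σ) := by fun_prop
    have := this.tendsto 0
    simpa using this
  have h3 := h.comp_tendsto h2
  refine h3.congr_right ?_ |>.congr_left ?_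
  · intro x; simp
  · intro x; simp

lemma hasDerivAt_shift {f : ℝ → ℂ} (hf : ContDiff ℝ (⊤ : ℕ∞) f) (s σ : ℝ) :
    HasDerivAt (fun σ : ℝ => f (s + σ)) (deriv f (s + σ)) σ := by
  exact (smooth_hasDeriv hf (s + σ)).comp_const_add s σ

lemma taylor2 {f : ℝ → ℂ} (hf : ContDiff ℝ (⊤ : ℕ∞) f) (s : ℝ) :
    (fun σ : ℝ => f (s + σ) - f s - σ * deriv f s) =O[𝓝 0] fun x => x ^ 2 := by
  refine bigO_int 1 (g := fun σ => deriv f (s + σ) - deriv f s) (fun σ => ?_) (by simp)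
    (taylor1 (smooth_deriv hf) s)
  have h1 := hasDerivAt_shift hf s σ
  have h2 : HasDerivAt (fun σ : ℝ => (σ : ℂ)) 1 σ := ofRealCLM.hasDerivAt
  have := (h1.sub_const (f s)).sub (h2.mul_const (deriv f s))
  convert! this using 1
  ring

lemma taylor3 {f : ℝ → ℂ} (hf : ContDiff ℝ (⊤ : ℕ∞) f) (s : ℝ) :
    (fun σ : ℝ => f (s + σ) - f s - σ * deriv f s - σ ^ 2 / 2 * deriv (deriv f) s)
      =O[𝓝 0] fun x => x ^ 3 := by
  refine bigO_int 2 (g := fun σ => deriv f (s + σ) - deriv f s - σ * deriv (deriv f) s)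
    (fun σ => ?_) (by simp) (taylor2 (smooth_deriv hf) s)
  have h1 := hasDerivAt_shift hf s σ
  have h2 : HasDerivAt (fun σ : ℝ => (σ : ℂ)) 1 σ := ofRealCLM.hasDerivAt
  have := ((h1.sub_const (f s)).sub (h2.mul_const (deriv f s))).sub
    (((h2.pow 2).div_const 2).mul_const (deriv (deriv f) s))
  convert! this using 1
  push_cast
  ring

lemma taylor4 {f : ℝ → ℂ} (hf : ContDiff ℝ (⊤ : ℕ∞) f) (s : ℝ) :
    (fun σ : ℝ => f (s + σ) - f s - σ * deriv f s - σ ^ 2 / 2 * deriv (deriv f) s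
      - σ ^ 3 / 6 * deriv (deriv (deriv f)) s) =O[𝓝 0] fun x => x ^ 4 := by
  refine bigO_int 3 (g := fun σ => deriv f (s + σ) - deriv f s - σ * deriv (deriv f) s
    - σ ^ 2 / 2 * deriv (deriv (deriv f)) s)
    (fun σ => ?_) (by simp) (taylor3 (smooth_deriv hf) s)
  have h1 := hasDerivAt_shift hf s σ
  have h2 : HasDerivAt (fun σ : ℝ => (σ : ℂ)) 1 σ := ofRealCLM.hasDerivAt
  have := (((h1.sub_const (f s)).sub (h2.mul_const (deriv f s))).sub
    (((h2.pow 2).div_const 2).mul_const (deriv (deriv f) s))).sub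
    (((h2.pow 3).div_const 6).mul_const (deriv (deriv (deriv f)) s))
  convert! this using 1
  push_cast
  ring

end Pool.Agent.X146.Cap
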