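import Mathlib
import Pool.Agent.X146.Cap.Geo

set_option autoImplicit false

/-! The difference of the two angles of a short chord is `κ' σ² / 6`. -/

namespace Pool.Agent.X146.Cap

open Set Topology Filter Complex Asymptotics
open scoped ComplexConjugate
open Pool.Agent.H738R2.Cyl

variable {γ : ℝ → ℂ} {L : ℝ}

lemma re_hasDeriv {f : ℝ → ℂ} {f' : ℂ} {x : ℝ} (h : HasDerivAt f f' x) :
    HasDerivAt (fun y => (f y).re) f'.re x := by
  exact Complex.reCLM.hasFDerivAt.comp_hasDerivAt x h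

lemma im_hasDeriv {f : ℝ → ℂ} {f' : ℂ} {x : ℝ} (h : HasDerivAt f f' x) :
    HasDerivAt (fun y => (f y).im) f'.im x := by
  exact Complex.imCLM.hasFDerivAt.comp_hasDerivAt x h

/-- the curvature -/
noncomputable def cu (γ : ℝ → ℂ) (s : ℝ) : ℝ := (conj (deriv γ s) * deriv (deriv γ) s).im

/-- the derivative of the curvature -/
noncomputable def cud (γ : ℝ → ℂ) (s : ℝ) : ℝ := (conj (deriv γ s) * deriv (deriv (deriv γ)) s).im

section
variable (h : StrictlyConvexCurve γ L)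
include h

lemma sq1 (s : ℝ) : (deriv γ s).re ^ 2 + (deriv γ s).im ^ 2 = 1 := by
  have := h.unit_speed s
  rw [← Complex.sq_norm_sub_sq_re (deriv γ s), this]; ring

lemma orth1 (s : ℝ) : (deriv γ s).re * (deriv (deriv γ) s).re
    + (deriv γ s).im * (deriv (deriv γ) s).im = 0 := by
  have h1 := smooth_hasDeriv (smooth_deriv h.smooth) s
  have h2 := ((re_hasDeriv h1).pow 2).add ((im_hasDeriv h1).pow 2)
  have h3 : (fun y => (deriv γ y).re ^ 2 + (deriv γ y).im ^ 2) = fun _ => (1:ℝ) :=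
    funext (sq1 h)
  have h4 : HasDerivAt (fun y => (deriv γ y).re ^ 2 + (deriv γ y).im ^ 2) 0 s := by
    rw [h3]; exact hasDerivAt_const s 1
  have h5 := h4.unique h2
  norm_num at h5
  linarith

lemma orth2 (s : ℝ) : (deriv (deriv γ) s).re ^ 2 + (deriv (deriv γ) s).im ^ 2
    + ((deriv γ s).re * (deriv (deriv (deriv γ)) s).re
    + (deriv γ s).im * (deriv (deriv (deriv γ)) s).im) = 0 := by
  have h1 := smooth_hasDeriv (smooth_deriv h.smooth) s
  have h1' := smooth_hasDeriv (smooth_deriv (smooth_deriv h.smooth)) s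
  have h2 := ((re_hasDeriv h1).mul (re_hasDeriv h1')).add ((im_hasDeriv h1).mul (im_hasDeriv h1'))
  have h3 : (fun y => (deriv γ y).re * (deriv (deriv γ) y).re
    + (deriv γ y).im * (deriv (deriv γ) y).im) = fun _ => (0:ℝ) := funext (orth1 h)
  have h4 : HasDerivAt (fun y => (deriv γ y).re * (deriv (deriv γ) y).re
    + (deriv γ y).im * (deriv (deriv γ) y).im) 0 s := by
    rw [h3]; exact hasDerivAt_const s 0
  have h5 := h4.unique h2
  linarith

lemma p_eq (s : ℝ) : conj (deriv γ s) * deriv (deriv γ) s = (cu γ s : ℂ) * I := by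
  apply Complex.ext
  · have := orth1 h s
    simp [cu]
    linarith
  · simp [cu]

lemma q_eq (s : ℝ) : conj (deriv γ s) * deriv (deriv (deriv γ)) s
    = -(cu γ s : ℂ) ^ 2 + (cud γ s : ℂ) * I := by
  apply Complex.ext
  · have h1 := orth1 h s
    have h2 := orth2 h s
    have h3 := sq1 h s
    have h4 : (cu γ s) ^ 2 = (deriv (deriv γ) s).re ^ 2 + (deriv (deriv γ) s).im ^ 2 := by
      simp only [cu, mul_im, conj_re, conj_im]
      have : ((deriv γ s).re * (deriv (deriv γ) s).im + -(deriv γ s).im * (deriv (deriv γ) s).re) ^ 2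
        = ((deriv γ s).re ^ 2 + (deriv γ s).im ^ 2) *
          ((deriv (deriv γ) s).re ^ 2 + (deriv (deriv γ) s).im ^ 2)
          - ((deriv γ s).re * (deriv (deriv γ) s).re
            + (deriv γ s).im * (deriv (deriv γ) s).im) ^ 2 := by ring
      rw [this, h1, h3]; ring
    have h5 : (-(cu γ s : ℂ) ^ 2 + (cud γ s : ℂ) * I).re = -(cu γ s) ^ 2 := by
      simp [← ofReal_pow]
    rw [h5, h4]
    simp only [mul_re, conj_re, conj_im]
    linarith
  · have h5 : (-(cu γ s : ℂ) ^ 2 + (cud γ s : ℂ) * I).im = cud γ s := by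
      simp [← ofReal_pow]
    rw [h5]
    rfl

end

lemma poly_id (x k m : ℝ) :
    ((x + x ^ 2 / 2 * (k * I) + x ^ 3 / 6 * (-(k:ℂ) ^ 2 + m * I)) ^ 2
      * (1 - x * (k * I) + x ^ 2 / 2 * (-(k:ℂ) ^ 2 - m * I)) : ℂ).im
    = - (m / 6) * x ^ 4 + x ^ 5 * (- k ^ 3 / 12 + 17 / 72 * k ^ 2 * m * x
      + (k * m ^ 2 / 9 + k ^ 5 / 18) * x ^ 2 + (k ^ 4 * m + m ^ 3) / 72 * x ^ 3) := by
  have e1 : (x + x ^ 2 / 2 * (k * I) + x ^ 3 / 6 * (-(k:ℂ) ^ 2 + m * I) : ℂ)
      = ((x - x ^ 3 / 6 * k ^ 2 : ℝ) : ℂ) + ((x ^ 2 / 2 * k + x ^ 3 / 6 * m : ℝ) : ℂ) * I := by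
    push_cast; ring
  have e2 : (1 - x * (k * I) + x ^ 2 / 2 * (-(k:ℂ) ^ 2 - m * I) : ℂ)
      = ((1 - x ^ 2 / 2 * k ^ 2 : ℝ) : ℂ) + ((- x * k - x ^ 2 / 2 * m : ℝ) : ℂ) * I := by
    push_cast; ring
  rw [e1, e2]
  generalize hu : x - x ^ 3 / 6 * k ^ 2 = u
  generalize hv : x ^ 2 / 2 * k + x ^ 3 / 6 * m = v
  generalize hr : 1 - x ^ 2 / 2 * k ^ 2 = r
  generalize ht : - x * k - x ^ 2 / 2 * m = t
  have : (((u:ℂ) + v * I) ^ 2 * (r + t * I)).im = (u ^ 2 - v ^ 2) * t + 2 * u * v * r := by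
    simp only [pow_two, mul_im, mul_re, add_re, add_im, ofReal_re, ofReal_im, I_re, I_im]
    ring
  rw [this, ← hu, ← hv, ← hr, ← ht]
  ring

section
variable (h : StrictlyConvexCurve γ L)
include h

lemma A0_asy (s : ℝ) : (fun σ : ℝ => A0 γ s (s + σ) - (σ + σ ^ 2 / 2 * (cu γ s * I)
    + σ ^ 3 / 6 * (-(cu γ s : ℂ) ^ 2 + cud γ s * I))) =O[𝓝 0] fun x => x ^ 4 := by
  have h1 := (taylor4 h.smooth s).const_mul_left (conj (deriv γ s))
  refine h1.congr_left fun σ => ?_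
  unfold A0
  rw [← p_eq h, ← q_eq h]
  linear_combination (-(σ:ℂ)) * conj_mul_self h s

lemma B_asy (s : ℝ) : (fun σ : ℝ => conj (conj (deriv γ s) * deriv γ (s + σ))
    - (1 - σ * (cu γ s * I) + σ ^ 2 / 2 * (-(cu γ s : ℂ) ^ 2 - cud γ s * I)))
      =O[𝓝 0] fun x => x ^ 3 := by
  have h1 := (taylor3 (smooth_deriv h.smooth) s).const_mul_left (conj (deriv γ s))
  have h2 : (fun σ : ℝ => conj (conj (deriv γ s) * (deriv γ (s + σ) - deriv γ s
    - σ * deriv (deriv γ) s - σ ^ 2 / 2 * deriv (deriv (deriv γ)) s)))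
      =O[𝓝 0] fun x => x ^ 3 := by
    refine IsBigO.congr_left (f₁ := fun σ => conj (conj (deriv γ s) * (deriv γ (s + σ) - deriv γ s
    - σ * deriv (deriv γ) s - σ ^ 2 / 2 * deriv (deriv (deriv γ)) s))) ?_ (fun σ => rfl)
    rw [← isBigO_norm_left]
    simp only [RCLike.norm_conj]
    rw [isBigO_norm_left]
    exact h1
  refine h2.congr_left fun σ => ?_
  have e : conj (deriv γ s) * (deriv γ (s + σ) - deriv γ s
    - σ * deriv (deriv γ) s - σ ^ 2 / 2 * deriv (deriv (deriv γ)) s)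
      = conj (deriv γ s) * deriv γ (s + σ) - (1 + σ * (cu γ s * I)
        + σ ^ 2 / 2 * (-(cu γ s : ℂ) ^ 2 + cud γ s * I)) := by
    rw [← p_eq h, ← q_eq h]
    linear_combination (-1) * conj_mul_self h s
  rw [e, map_sub]
  congr 1
  simp only [map_add, map_mul, map_one, map_div₀, map_pow, map_neg, conj_ofReal, conj_I]
  have : conj (2:ℂ) = 2 := by
    rw [conj_eq_iff_im]; rfl
  rw [this]
  ring

lemma prod_eq (s σ : ℝ) : A0 γ s (s + σ) * A1 γ s (s + σ)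
    = A0 γ s (s + σ) ^ 2 * conj (conj (deriv γ s) * deriv γ (s + σ)) := by
  unfold A0 A1
  rw [map_mul, conj_conj]
  linear_combination (-(conj (deriv γ s)) * (γ (s + σ) - γ s) ^ 2 * conj (deriv γ (s + σ)))
    * conj_mul_self h s

lemma im_asy (s : ℝ) : (fun σ : ℝ => (A0 γ s (s + σ) * A1 γ s (s + σ)).im + cud γ s / 6 * σ ^ 4)
    =O[𝓝 0] fun x => x ^ 5 := by
  set k := cu γ s with hk
  set m := cud γ s with hm
  let P : ℝ → ℂ := fun σ => σ + σ ^ 2 / 2 * (k * I) + σ ^ 3 / 6 * (-(k : ℂ) ^ 2 + m * I)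
  let Q : ℝ → ℂ := fun σ => 1 - σ * (k * I) + σ ^ 2 / 2 * (-(k : ℂ) ^ 2 - m * I)
  let B : ℝ → ℂ := fun σ => conj (conj (deriv γ s) * deriv γ (s + σ))
  let A : ℝ → ℂ := fun σ => A0 γ s (s + σ)
  have hA : (fun σ => A σ - P σ) =O[𝓝 0] fun x : ℝ => x ^ 4 := A0_asy h s
  have hB : (fun σ => B σ - Q σ) =O[𝓝 0] fun x : ℝ => x ^ 3 := B_asy h s
  have hP : P =O[𝓝 0] fun x : ℝ => x ^ 1 := by
    have h1 : P = fun σ : ℝ => (σ : ℂ) * (1 + σ / 2 * (k * I) + σ ^ 2 / 6 * (-(k : ℂ) ^ 2 + m * I)) := by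
      funext σ; simp only [P]; ring
    rw [h1]
    have h2 : (fun σ : ℝ => (1 + σ / 2 * (k * I) + σ ^ 2 / 6 * (-(k : ℂ) ^ 2 + m * I) : ℂ))
        =O[𝓝 0] fun _ => (1:ℝ) := by
      have : Continuous (fun σ : ℝ => (1 + σ / 2 * (k * I) + σ ^ 2 / 6 * (-(k : ℂ) ^ 2 + m * I) : ℂ)) := by
        fun_prop
      exact this.continuousAt.isBigO_one ℝ
    have h3 : (fun σ : ℝ => (σ : ℂ)) =O[𝓝 0] fun x : ℝ => x := by
      refine IsBigO.of_bound 1 (Eventually.of_forall fun x => ?_)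
      simp
    simpa using h3.mul h2
  have hQ : Q =O[𝓝 0] fun _ : ℝ => (1:ℝ) := by
    have : Continuous Q := by simp only [Q]; fun_prop
    exact this.continuousAt.isBigO_one ℝ
  have hBb : B =O[𝓝 0] fun _ : ℝ => (1:ℝ) := by
    refine IsBigO.of_bound 1 (Eventually.of_forall fun x => ?_)
    simp only [B, RCLike.norm_conj, norm_mul, h.unit_speed]
    norm_num
  have hAb : A =O[𝓝 0] fun x : ℝ => x ^ 1 := by
    have h4 : (fun x : ℝ => x ^ 4) =O[𝓝 0] fun x : ℝ => x ^ 1 := by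
      refine IsBigO.of_bound 1 ?_
      filter_upwards [Metric.ball_mem_nhds (0:ℝ) one_pos] with x hx
      rw [Metric.mem_ball, Real.dist_eq, sub_zero] at hx
      rw [norm_pow, norm_pow, Real.norm_eq_abs, one_mul]
      exact pow_le_pow_of_le_one (abs_nonneg x) hx.le (by norm_num)
    have := (hA.trans h4).add hP
    simpa using this
  have key : (fun σ => A σ ^ 2 * B σ - P σ ^ 2 * Q σ) =O[𝓝 0] fun x : ℝ => x ^ 5 := by
    have e : (fun σ => A σ ^ 2 * B σ - P σ ^ 2 * Q σ)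
        = fun σ => (A σ - P σ) * (A σ + P σ) * B σ + P σ ^ 2 * (B σ - Q σ) := by
      funext σ; ring
    rw [e]
    have t1 := (hA.mul (hAb.add hP)).mul hBb
    have t2 := (hP.mul hP).mul hB
    have t1' : (fun σ => (A σ - P σ) * (A σ + P σ) * B σ) =O[𝓝 0] fun x : ℝ => x ^ 5 :=
      t1.congr_right fun x => by ring
    have t2' : (fun σ => P σ ^ 2 * (B σ - Q σ)) =O[𝓝 0] fun x : ℝ => x ^ 5 := by
      refine (t2.congr_right fun x => ?_).congr_left fun x => ?_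
      · ring
      · ring
    exact t1'.add t2'
  have key2 : (fun σ => (A σ ^ 2 * B σ - P σ ^ 2 * Q σ).im) =O[𝓝 0] fun x : ℝ => x ^ 5 := by
    refine IsBigO.trans (IsBigO.of_bound 1 (Eventually.of_forall fun x => ?_)) key
    rw [one_mul, Real.norm_eq_abs]
    exact abs_im_le_norm _
  have key3 : (fun σ : ℝ => σ ^ 5 * (- k ^ 3 / 12 + 17 / 72 * k ^ 2 * m * σ
      + (k * m ^ 2 / 9 + k ^ 5 / 18) * σ ^ 2 + (k ^ 4 * m + m ^ 3) / 72 * σ ^ 3))
      =O[𝓝 0] fun x : ℝ => x ^ 5 := by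
    have h1 : (fun σ : ℝ => (- k ^ 3 / 12 + 17 / 72 * k ^ 2 * m * σ
      + (k * m ^ 2 / 9 + k ^ 5 / 18) * σ ^ 2 + (k ^ 4 * m + m ^ 3) / 72 * σ ^ 3))
      =O[𝓝 0] fun _ : ℝ => (1:ℝ) := by
      have : Continuous (fun σ : ℝ => (- k ^ 3 / 12 + 17 / 72 * k ^ 2 * m * σ
        + (k * m ^ 2 / 9 + k ^ 5 / 18) * σ ^ 2 + (k ^ 4 * m + m ^ 3) / 72 * σ ^ 3)) := by fun_prop
      exact this.continuousAt.isBigO_one ℝ
    have h2 : (fun σ : ℝ => σ ^ 5) =O[𝓝 0] fun x : ℝ => x ^ 5 := isBigO_refl _ _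
    simpa using h2.mul h1
  refine (key2.add key3).congr_left fun σ => ?_
  have e1 := poly_id σ k m
  have e2 := prod_eq h s σ
  rw [e2, sub_im]
  change (A σ ^ 2 * B σ).im - (P σ ^ 2 * Q σ).im + _ = (A σ ^ 2 * B σ).im + _
  have e3 : (P σ ^ 2 * Q σ).im = - (m / 6) * σ ^ 4 + σ ^ 5 * (- k ^ 3 / 12
    + 17 / 72 * k ^ 2 * m * σ
      + (k * m ^ 2 / 9 + k ^ 5 / 18) * σ ^ 2 + (k ^ 4 * m + m ^ 3) / 72 * σ ^ 3) := e1
  rw [e3]
  ring

/-- sign of the difference of the angles, curvature increasing -/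
lemma sign_pos (s : ℝ) (hs : 0 < cud γ s) : ∃ δ > 0, ∀ σ : ℝ, 0 < σ → σ < δ →
    (A0 γ s (s + σ) * A1 γ s (s + σ)).im < 0 := by
  obtain ⟨C, hC⟩ := (im_asy h s).bound
  obtain ⟨δ, hδ, hb⟩ := Metric.eventually_nhds_iff.mp hC
  let C' := |C| + 1
  have hC' : 0 < C' := by positivity
  refine ⟨min δ (cud γ s / 6 / C'), lt_min hδ (by positivity), fun σ h0 h1 => ?_⟩
  have h2 : σ < δ := h1.trans_le (min_le_left _ _)
  have h3 : σ < cud γ s / 6 / C' := h1.trans_le (min_le_right _ _)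
  have h4 := hb (y := σ) (by rw [Real.dist_eq, sub_zero, abs_of_pos h0]; exact h2)
  rw [Real.norm_eq_abs, Real.norm_eq_abs, abs_of_pos (by positivity : 0 < σ ^ 5)] at h4
  have h5 := (le_abs_self _).trans h4
  have h6 : C * σ ^ 5 ≤ C' * σ ^ 5 := by
    have : C ≤ C' := by have := le_abs_self C; simp only [C']; linarith
    exact mul_le_mul_of_nonneg_right this (by positivity)
  have h7 : σ * C' < cud γ s / 6 := by rwa [lt_div_iff₀ hC'] at h3
  have h8 : C' * σ ^ 5 < cud γ s / 6 * σ ^ 4 := by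
    have : C' * σ ^ 5 = (σ * C') * σ ^ 4 := by ring
    rw [this]
    exact mul_lt_mul_of_pos_right h7 (by positivity)
  linarith

lemma sign_neg (s : ℝ) (hs : cud γ s < 0) : ∃ δ > 0, ∀ σ : ℝ, 0 < σ → σ < δ →
    0 < (A0 γ s (s + σ) * A1 γ s (s + σ)).im := by
  obtain ⟨C, hC⟩ := (im_asy h s).bound
  obtain ⟨δ, hδ, hb⟩ := Metric.eventually_nhds_iff.mp hC
  let C' := |C| + 1
  have hC' : 0 < C' := by positivity
  refine ⟨min δ (-cud γ s / 6 / C'), lt_min hδ (by have : 0 < -cud γ s := by linarith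
                                                   positivity), fun σ h0 h1 => ?_⟩
  have h2 : σ < δ := h1.trans_le (min_le_left _ _)
  have h3 : σ < -cud γ s / 6 / C' := h1.trans_le (min_le_right _ _)
  have h4 := hb (y := σ) (by rw [Real.dist_eq, sub_zero, abs_of_pos h0]; exact h2)
  rw [Real.norm_eq_abs, Real.norm_eq_abs, abs_of_pos (by positivity : 0 < σ ^ 5)] at h4
  have h5 := (neg_abs_le _).trans' (neg_le_neg h4)
  have h6 : C * σ ^ 5 ≤ C' * σ ^ 5 := by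
    have : C ≤ C' := by have := le_abs_self C; simp only [C']; linarith
    exact mul_le_mul_of_nonneg_right this (by positivity)
  have h7 : σ * C' < -cud γ s / 6 := by rwa [lt_div_iff₀ hC'] at h3
  have h8 : C' * σ ^ 5 < -cud γ s / 6 * σ ^ 4 := by
    have : C' * σ ^ 5 = (σ * C') * σ ^ 4 := by ring
    rw [this]
    exact mul_lt_mul_of_pos_right h7 (by positivity)
  linarith

end

end Pool.Agent.X146.Cap
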