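import Mathlib
import Pool.Agent.H738R2.CylStmt

set_option autoImplicit false

/-! Definitions for MP_61130f_an. -/

namespace Pool.Agent.X146.Cap

open Pool.Agent.H738R2.Cyl

/-- The closed curve `Φ (·, t)`. -/
def leaf {L : ℝ} (Φ : AddCircle (1 : ℝ) × ℝ → PhaseCylinder L) (t : ℝ) : Set (PhaseCylinder L) :=
  Set.range fun θ => Φ (θ, t)

/-- `T` is integrable: the phase cylinder is foliated by closed non-contractible `T`-invariant
curves. The foliation is given by a homeomorphism `Φ` from `S¹ × ℝ` onto the phase cylinder; its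
leaves are the curves `Φ (S¹ × {t})`. -/
def IsIntegrable {L : ℝ} (T : PhaseCylinder L → PhaseCylinder L) : Prop :=
  ∃ Φ : AddCircle (1 : ℝ) × ℝ ≃ₜ PhaseCylinder L, ∀ t, IsRotationalInvariantCurve T (leaf Φ t)

/-- A neighbourhood of the boundary component `{α = 0}` of the phase cylinder is foliated by closed
non-contractible `T`-invariant curves: there is an open embedding `Φ` of `S¹ × ℝ` the image of
which contains `{α < ε}`, such that all the curves `Φ (S¹ × {t})` are of this kind. -/
def IsIntegrableNearBoundary {L : ℝ} (T : PhaseCylinder L → PhaseCylinder L) : Prop :=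
  ∃ (ε : ℝ) (Φ : AddCircle (1 : ℝ) × ℝ → PhaseCylinder L), 0 < ε ∧ Topology.IsOpenEmbedding Φ ∧
    {z : PhaseCylinder L | (z.2 : ℝ) < ε} ⊆ Set.range Φ ∧
    ∀ t, IsRotationalInvariantCurve T (leaf Φ t)

/-- Every point `(s, α)` with `α` small lies on a `T`-invariant curve which is the graph
`{α = g(s)}` of a continuous function `g` (the graphs may cross each other). -/
def HasInvariantGraphsNearBoundary {L : ℝ} (T : PhaseCylinder L → PhaseCylinder L) : Prop :=
  ∃ ε : ℝ, 0 < ε ∧ ∀ z : PhaseCylinder L, (z.2 : ℝ) < ε →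
    ∃ g : C(AddCircle L, Set.Ioo (0 : ℝ) Real.pi), g z.1 = z.2 ∧
      T '' {w | w.2 = g w.1} = {w | w.2 = g w.1}

end Pool.Agent.X146.Cap
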