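import Mathlib
import Pool.Agent.Helper627.PM

set_option autoImplicit false

/-! A topological lemma: a map that preserves the leaves of a foliation of an annulus by essential
closed curves has no fixed points of non-zero index. -/

namespace Pool.Agent.X146.Cap

open Set Topology

variable {L : ℝ}

/-- lifting a continuous map to the circle to the line -/
lemma exists_lift {X : Type*} [TopologicalSpace X] [SimplyConnectedSpace X]
    [LocallyPathConnectedSpace X] (p : ℝ) (f : C(X, AddCircle p)) :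
    ∃ F : C(X, ℝ), ∀ x, ((F x : ℝ) : AddCircle p) = f x := by
  have cov : IsCoveringMap ((↑) : ℝ → AddCircle p) := AddCircle.isCoveringMap_coe p
  obtain ⟨x₀⟩ : Nonempty X := inferInstance
  obtain ⟨e₀, he₀⟩ : ∃ e₀ : ℝ, ((e₀ : ℝ) : AddCircle p) = f x₀ :=
    QuotientAddGroup.mk_surjective (f x₀)
  obtain ⟨F, ⟨-, hF⟩, -⟩ := cov.existsUnique_continuousMap_lifts f x₀ e₀ he₀
  exact ⟨F, fun x => congrFun hF x⟩

/-- a continuous real function with values in the multiples of the period is constant -/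
lemma const_of_coe {X : Type*} [TopologicalSpace X] [PreconnectedSpace X] (p : ℝ) (f : X → ℝ)
    (hf : Continuous f) (h : ∀ x, ((f x : ℝ) : AddCircle p) = 0) (x y : X) : f x = f y := by
  have cov : IsCoveringMap ((↑) : ℝ → AddCircle p) := AddCircle.isCoveringMap_coe p
  exact cov.const_of_comp hf (fun a b => by rw [h a, h b]) x y

lemma coe_eq_imp {p : ℝ} {a b : ℝ} (h : (a : AddCircle p) = (b : AddCircle p)) :
    ∃ n : ℤ, a = b + n * p := by
  rw [← sub_eq_zero, ← AddCircle.coe_sub, AddCircle.coe_eq_zero_iff] at h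
  obtain ⟨n, hn⟩ := h
  refine ⟨n, ?_⟩
  rw [zsmul_eq_mul] at hn
  linarith

lemma coe_add_int_mul (p a : ℝ) (n : ℤ) : ((a + n * p : ℝ) : AddCircle p) = (a : AddCircle p) := by
  rw [AddCircle.coe_add]
  have : ((n * p : ℝ) : AddCircle p) = 0 := by
    rw [AddCircle.coe_eq_zero_iff]
    exact ⟨n, by simp⟩
  rw [this, add_zero]

/-- The data of an open embedding of the annulus into the phase cylinder. -/
structure Dat (L ε : ℝ) where
  Φ : AddCircle (1:ℝ) × ℝ → AddCircle L × Ioo (0:ℝ) Real.pi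
  emb : IsOpenEmbedding Φ
  hL : 0 < L
  hε : 0 < ε
  hr : {z : AddCircle L × Ioo (0:ℝ) Real.pi | (z.2 : ℝ) < ε} ⊆ range Φ

namespace Dat

variable {ε : ℝ} (D : Dat L ε)

lemma exists_F : ∃ (F : C(ℝ × ℝ, ℝ)) (κ : ℝ),
    (∀ x : ℝ × ℝ, ((F x : ℝ) : AddCircle L) = (D.Φ ((x.1 : AddCircle (1:ℝ)), x.2)).1) ∧
    (∀ θ t, F (θ + 1, t) = F (θ, t) + κ) := by
  have hc : Continuous ((↑) : ℝ → AddCircle (1:ℝ)) := AddCircle.continuous_mk' 1
  have hΦ := D.emb.continuous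
  obtain ⟨F, hF⟩ := exists_lift (X := ℝ × ℝ) L
    ⟨fun x => (D.Φ ((x.1 : AddCircle (1:ℝ)), x.2)).1, by fun_prop⟩
  refine ⟨F, F (0 + 1, 0) - F (0, 0), hF, fun θ t => ?_⟩
  have h := const_of_coe (X := ℝ × ℝ) L (fun x => F (x.1 + 1, x.2) - F x) (by fun_prop) (by
    intro x
    rw [AddCircle.coe_sub, hF, hF]
    simp) (θ, t) (0, 0)
  simp only at h
  linarith

/-- the lift of the embedding (first coordinate) -/
noncomputable def F : C(ℝ × ℝ, ℝ) := D.exists_F.choose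

noncomputable def κ : ℝ := D.exists_F.choose_spec.choose

lemma F_coe (x : ℝ × ℝ) :
    ((D.F x : ℝ) : AddCircle L) = (D.Φ ((x.1 : AddCircle (1:ℝ)), x.2)).1 :=
  D.exists_F.choose_spec.choose_spec.1 x

lemma F_add_one (θ t : ℝ) : D.F (θ + 1, t) = D.F (θ, t) + D.κ :=
  D.exists_F.choose_spec.choose_spec.2 θ t

lemma F_add_nat (θ t : ℝ) (n : ℕ) : D.F (θ + n, t) = D.F (θ, t) + n * D.κ := by
  induction n with
  | zero => simp
  | succ n ih =>
    have : θ + ((n + 1 : ℕ) : ℝ) = (θ + n) + 1 := by push_cast; ring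
    rw [this, F_add_one, ih]; push_cast; ring

lemma F_add_int (θ t : ℝ) (n : ℤ) : D.F (θ + n, t) = D.F (θ, t) + n * D.κ := by
  obtain ⟨m, rfl | rfl⟩ := n.eq_nat_or_neg
  · exact_mod_cast D.F_add_nat θ t m
  · have h := D.F_add_nat (θ + ((-(m:ℤ) : ℤ) : ℝ)) t m
    have h2 : θ + ((-(m:ℤ) : ℤ) : ℝ) + m = θ := by push_cast; ring
    rw [h2] at h
    rw [h]; push_cast; ring

/-- pulling back a map into the range of the embedding -/
lemma exists_pull {X : Type*} [TopologicalSpace X] (f : C(X, AddCircle L × Ioo (0:ℝ) Real.pi))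
    (hf : ∀ x, ((f x).2 : ℝ) < ε) : ∃ g : C(X, AddCircle (1:ℝ) × ℝ), ∀ x, D.Φ (g x) = f x := by
  let e := D.emb.isEmbedding.toHomeomorph
  refine ⟨⟨fun x => e.symm ⟨f x, D.hr (hf x)⟩, by fun_prop⟩, fun x => ?_⟩
  have h := congrArg Subtype.val (e.apply_symm_apply ⟨f x, D.hr (hf x)⟩)
  exact h

/-- existence of an integer `m` with `m κ = L` -/
lemma exists_m : ∃ m : ℤ, m * D.κ = L := by
  have hcL : Continuous ((↑) : ℝ → AddCircle L) := AddCircle.continuous_mk' L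
  have hε := D.hε
  have hpi := Real.pi_pos
  let a : ℝ := min ε Real.pi / 2
  have ha0 : 0 < a := by positivity
  have haε : a < ε := by
    have : min ε Real.pi ≤ ε := min_le_left _ _
    have h2 : 0 < min ε Real.pi := lt_min hε hpi
    change min ε Real.pi / 2 < ε
    linarith
  have haπ : a < Real.pi := by
    have : min ε Real.pi ≤ Real.pi := min_le_right _ _
    have h2 : 0 < min ε Real.pi := lt_min hε hpi
    change min ε Real.pi / 2 < Real.pi
    linarith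
  obtain ⟨g, hg⟩ := D.exists_pull (X := ℝ)
    ⟨fun s => ((s : AddCircle L), ⟨a, ha0, haπ⟩), by fun_prop⟩ (fun s => haε)
  obtain ⟨θ, hθ⟩ := exists_lift (X := ℝ) 1 ⟨fun s => (g s).1, by fun_prop⟩
  have hg0 : g L = g 0 := by
    apply D.emb.injective
    rw [hg, hg]
    simp
  obtain ⟨m, hm⟩ : ∃ m : ℤ, θ L = θ 0 + m * 1 := by
    apply coe_eq_imp
    rw [hθ, hθ]
    simp [hg0]
  refine ⟨m, ?_⟩
  have key := const_of_coe (X := ℝ) L (fun s => D.F (θ s, (g s).2) - s) (by fun_prop) (by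
    intro s
    rw [AddCircle.coe_sub, D.F_coe, hθ]
    have := hg s
    simp only [ContinuousMap.coe_mk] at this ⊢
    rw [Prod.mk.eta, this, sub_self]) L 0
  rw [hm, hg0, mul_one, D.F_add_int] at key
  linarith

lemma κ_ne : D.κ ≠ 0 := by
  obtain ⟨m, hm⟩ := D.exists_m
  intro h
  rw [h, mul_zero] at hm
  exact D.hL.ne hm

/-- lifting a map into the range to the universal covers -/
lemma exists_lift2 {X : Type*} [TopologicalSpace X] [SimplyConnectedSpace X]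
    [LocallyPathConnectedSpace X] (z1 : C(X, ℝ)) (z2 : C(X, Ioo (0:ℝ) Real.pi))
    (hz : ∀ x, (z2 x : ℝ) < ε) :
    ∃ θ t : C(X, ℝ), (∀ x, D.Φ ((θ x : AddCircle (1:ℝ)), t x) = ((z1 x : AddCircle L), z2 x)) ∧
      ∀ x, D.F (θ x, t x) = z1 x := by
  have hcL : Continuous ((↑) : ℝ → AddCircle L) := AddCircle.continuous_mk' L
  obtain ⟨g, hg⟩ := D.exists_pull (X := X)
    ⟨fun x => ((z1 x : AddCircle L), z2 x), by fun_prop⟩ hz
  obtain ⟨θ, hθ⟩ := exists_lift (X := X) 1 ⟨fun s => (g s).1, by fun_prop⟩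
  have hΦ : ∀ x, D.Φ ((θ x : AddCircle (1:ℝ)), (g x).2) = ((z1 x : AddCircle L), z2 x) := by
    intro x
    rw [hθ]
    exact hg x
  obtain ⟨x₀⟩ : Nonempty X := inferInstance
  have key := fun x => const_of_coe (X := X) L (fun s => D.F (θ s, (g s).2) - z1 s)
    (by fun_prop) (by
    intro s
    rw [AddCircle.coe_sub, D.F_coe, hΦ, sub_self]) x x₀
  obtain ⟨j, hj⟩ : ∃ j : ℤ, D.F (θ x₀, (g x₀).2) = z1 x₀ + j * L := by
    apply coe_eq_imp
    rw [D.F_coe, hΦ]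
  obtain ⟨m, hm⟩ := D.exists_m
  refine ⟨⟨fun x => θ x + ((-(j * m) : ℤ) : ℝ), by fun_prop⟩, ⟨fun x => (g x).2, by fun_prop⟩,
    fun x => ?_, fun x => ?_⟩
  · simp only [ContinuousMap.coe_mk]
    have : ((θ x + ((-(j * m) : ℤ) : ℝ) : ℝ) : AddCircle (1:ℝ)) = (θ x : AddCircle (1:ℝ)) := by
      have := coe_add_int_mul 1 (θ x) (-(j * m))
      rw [mul_one] at this
      exact this
    rw [this]
    exact hΦ x
  · simp only [ContinuousMap.coe_mk]
    rw [D.F_add_int]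
    have := key x
    push_cast
    have h3 : (-((j:ℝ) * m)) * D.κ = -(j * L) := by
      have : (-((j:ℝ) * m)) * D.κ = -(j * (m * D.κ)) := by ring
      rw [this, hm]
    rw [h3]
    linarith

/-- injectivity of the lift -/
lemma inj_lift {θ θ' t : ℝ} (h1 : D.F (θ, t) = D.F (θ', t))
    (h2 : (D.Φ ((θ : AddCircle (1:ℝ)), t)).2 = (D.Φ ((θ' : AddCircle (1:ℝ)), t)).2) : θ = θ' := by
  have h3 : D.Φ ((θ : AddCircle (1:ℝ)), t) = D.Φ ((θ' : AddCircle (1:ℝ)), t) := by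
    refine Prod.ext ?_ h2
    have e1 := D.F_coe (θ, t)
    have e2 := D.F_coe (θ', t)
    rw [h1] at e1
    exact e1.symm.trans e2
  have h4 := congrArg Prod.fst (D.emb.injective h3)
  obtain ⟨m, hm⟩ := coe_eq_imp h4
  rw [mul_one] at hm
  rw [hm, D.F_add_int] at h1
  have : (m:ℝ) * D.κ = 0 := by linarith
  rcases mul_eq_zero.mp this with h | h
  · rw [hm, h, add_zero]
  · exact absurd h D.κ_ne

/-- **No index.**  If `w x` lies on the same leaf as `z x` then the displacement `w - z` cannot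
have the boundary signs of the Poincaré–Miranda theorem. -/
theorem index_zero (z1 w1 : C(ℝ × ℝ, ℝ)) (z2 w2 : C(ℝ × ℝ, Ioo (0:ℝ) Real.pi))
    (hz : ∀ x, (z2 x : ℝ) < ε) (hw : ∀ x, (w2 x : ℝ) < ε)
    (a b c d : ℝ) (hab : a < b) (hcd : c < d)
    (hleaf : ∀ x ∈ Icc a b ×ˢ Icc c d, ∃ (t : ℝ) (θ θ' : AddCircle (1:ℝ)),
      D.Φ (θ, t) = ((z1 x : AddCircle L), z2 x) ∧ D.Φ (θ', t) = ((w1 x : AddCircle L), w2 x))
    (h1 : ∀ y ∈ Icc c d, z1 (a, y) < w1 (a, y)) (h2 : ∀ y ∈ Icc c d, w1 (b, y) < z1 (b, y))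
    (h3 : ∀ x ∈ Icc a b, (z2 (x, c) : ℝ) < w2 (x, c))
    (h4 : ∀ x ∈ Icc a b, (w2 (x, d) : ℝ) < z2 (x, d)) : False := by
  obtain ⟨θ, t, e1, e2⟩ := D.exists_lift2 z1 z2 hz
  obtain ⟨θ', t', e1', e2'⟩ := D.exists_lift2 w1 w2 hw
  have htt : ∀ x ∈ Icc a b ×ˢ Icc c d, t' x = t x := by
    intro x hx
    obtain ⟨t₀, α, β, f1, f2⟩ := hleaf x hx
    have g1 := congrArg Prod.snd (D.emb.injective (f1.trans (e1 x).symm))
    have g2 := congrArg Prod.snd (D.emb.injective (f2.trans (e1' x).symm))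
    simp only at g1 g2
    rw [← g1, ← g2]
  -- the difference of the leaf coordinates
  have hne : ∀ x ∈ Icc a b ×ˢ Icc c d, (z1 x ≠ w1 x ∨ (z2 x : ℝ) ≠ w2 x) → θ' x - θ x ≠ 0 := by
    intro x hx h h0
    have h5 : θ' x = θ x := by linarith
    have h6 := htt x hx
    rcases h with h | h
    · apply h
      rw [← e2, ← e2', h5, h6]
    · apply h
      have := e1' x
      rw [h5, h6, e1 x] at this
      have h7 := congrArg Prod.snd this
      simp only at h7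
      rw [h7]
  have hL' : ∀ y ∈ Icc c d, θ' (a, y) - θ (a, y) ≠ 0 := fun y hy =>
    hne _ ⟨⟨le_rfl, hab.le⟩, hy⟩ (Or.inl (h1 y hy).ne)
  have hR' : ∀ y ∈ Icc c d, θ' (b, y) - θ (b, y) ≠ 0 := fun y hy =>
    hne _ ⟨⟨hab.le, le_rfl⟩, hy⟩ (Or.inl (h2 y hy).ne')
  have hB' : ∀ x ∈ Icc a b, θ' (x, c) - θ (x, c) ≠ 0 := fun x hx =>
    hne _ ⟨hx, ⟨le_rfl, hcd.le⟩⟩ (Or.inr (h3 x hx).ne)
  have hT' : ∀ x ∈ Icc a b, θ' (x, d) - θ (x, d) ≠ 0 := fun x hx =>
    hne _ ⟨hx, ⟨hcd.le, le_rfl⟩⟩ (Or.inr (h4 x hx).ne')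
  -- the boundary of the rectangle
  let S : Set (ℝ × ℝ) := ((fun y => (a, y)) '' Icc c d ∪ (fun x => (x, c)) '' Icc a b) ∪
    ((fun y => (b, y)) '' Icc c d ∪ (fun x => (x, d)) '' Icc a b)
  have hS : IsPreconnected S := by
    have ca : a ∈ Icc a b := ⟨le_rfl, hab.le⟩
    have cb : b ∈ Icc a b := ⟨hab.le, le_rfl⟩
    have cc : c ∈ Icc c d := ⟨le_rfl, hcd.le⟩
    have cd : d ∈ Icc c d := ⟨hcd.le, le_rfl⟩
    have p1 : IsPreconnected ((fun y => (a, y)) '' Icc c d) :=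
      isPreconnected_Icc.image _ (by fun_prop)
    have p2 : IsPreconnected ((fun x => (x, c)) '' Icc a b) :=
      isPreconnected_Icc.image _ (by fun_prop)
    have p3 : IsPreconnected ((fun y => (b, y)) '' Icc c d) :=
      isPreconnected_Icc.image _ (by fun_prop)
    have p4 : IsPreconnected ((fun x => (x, d)) '' Icc a b) :=
      isPreconnected_Icc.image _ (by fun_prop)
    refine IsPreconnected.union (a, d) ?_ ?_ (p1.union (a, c) ⟨c, cc, rfl⟩ ⟨a, ca, rfl⟩ p2)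
      (p3.union (b, d) ⟨d, cd, rfl⟩ ⟨b, cb, rfl⟩ p4)
    · exact Or.inl ⟨d, cd, rfl⟩
    · exact Or.inr ⟨a, ca, rfl⟩
  have hSne : ∀ x ∈ S, θ' x - θ x ≠ 0 := by
    rintro x ((⟨y, hy, rfl⟩ | ⟨y, hy, rfl⟩) | (⟨y, hy, rfl⟩ | ⟨y, hy, rfl⟩))
    · exact hL' y hy
    · exact hB' y hy
    · exact hR' y hy
    · exact hT' y hy
  -- the sign is constant
  have hsign : (∀ x ∈ S, 0 < θ' x - θ x) ∨ (∀ x ∈ S, θ' x - θ x < 0) := by
    by_contra hcon
    push Not at hcon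
    obtain ⟨⟨x, hx, hx0⟩, ⟨y, hy, hy0⟩⟩ := hcon
    have hcont : ContinuousOn (fun x => θ' x - θ x) S := by fun_prop
    have himg := (hS.image _ hcont).ordConnected
    have : (0:ℝ) ∈ (fun x => θ' x - θ x) '' S :=
      himg.out ⟨x, hx, rfl⟩ ⟨y, hy, rfl⟩ ⟨hx0, hy0⟩
    obtain ⟨w, hwS, hw0⟩ := this
    exact hSne w hwS hw0
  -- the extension of the homotopy parameter
  let δ : ℝ × ℝ → ℝ := fun x => |θ' x - θ x| + (x.1 - a) * (b - x.1) * ((x.2 - c) * (d - x.2))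
  have hδc : Continuous δ := by
    have : Continuous θ := θ.continuous
    have : Continuous θ' := θ'.continuous
    fun_prop
  have hδpos : ∀ x ∈ Icc a b ×ˢ Icc c d, 0 < δ x := by
    rintro ⟨x, y⟩ ⟨hx, hy⟩
    simp only at hx hy
    have q1 : 0 ≤ x - a := by linarith [hx.1]
    have q2 : 0 ≤ b - x := by linarith [hx.2]
    have q3 : 0 ≤ y - c := by linarith [hy.1]
    have q4 : 0 ≤ d - y := by linarith [hy.2]
    have q5 : 0 ≤ (x - a) * (b - x) * ((y - c) * (d - y)) := by positivity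
    by_cases hS' : (x, y) ∈ S
    · have := abs_pos.mpr (hSne _ hS')
      change 0 < |θ' (x, y) - θ (x, y)| + (x - a) * (b - x) * ((y - c) * (d - y))
      linarith
    · have n1 : x ≠ a := by
        rintro rfl; exact hS' (Or.inl (Or.inl ⟨y, hy, rfl⟩))
      have n2 : x ≠ b := by
        rintro rfl; exact hS' (Or.inr (Or.inl ⟨y, hy, rfl⟩))
      have n3 : y ≠ c := by
        rintro rfl; exact hS' (Or.inl (Or.inr ⟨x, hx, rfl⟩))
      have n4 : y ≠ d := by
        rintro rfl; exact hS' (Or.inr (Or.inr ⟨x, hx, rfl⟩))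
      have r1 : 0 < x - a := lt_of_le_of_ne q1 (fun h => n1 (by linarith))
      have r2 : 0 < b - x := lt_of_le_of_ne q2 (fun h => n2 (by linarith))
      have r3 : 0 < y - c := lt_of_le_of_ne q3 (fun h => n3 (by linarith))
      have r4 : 0 < d - y := lt_of_le_of_ne q4 (fun h => n4 (by linarith))
      have r5 : 0 < (x - a) * (b - x) * ((y - c) * (d - y)) := by positivity
      have := abs_nonneg (θ' (x, y) - θ (x, y))
      change 0 < |θ' (x, y) - θ (x, y)| + (x - a) * (b - x) * ((y - c) * (d - y))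
      linarith
  have hδS : ∀ x ∈ S, δ x = |θ' x - θ x| := by
    rintro x ((⟨y, hy, rfl⟩ | ⟨y, hy, rfl⟩) | (⟨y, hy, rfl⟩ | ⟨y, hy, rfl⟩)) <;> simp [δ]
  obtain ⟨τ, hτc, hτ0, hτS⟩ : ∃ τ : ℝ × ℝ → ℝ, Continuous τ ∧
      (∀ x ∈ Icc a b ×ˢ Icc c d, τ x ≠ 0) ∧ ∀ x ∈ S, τ x = θ' x - θ x := by
    rcases hsign with hs | hs
    · exact ⟨δ, hδc, fun x hx => (hδpos x hx).ne', fun x hx => by
        rw [hδS x hx, abs_of_pos (hs x hx)]⟩
    · exact ⟨fun x => - δ x, hδc.neg, fun x hx => (neg_neg_of_pos (hδpos x hx)).ne, fun x hx => by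
        change - δ x = _
        rw [hδS x hx, abs_of_neg (hs x hx), neg_neg]⟩
  -- the Poincaré–Miranda theorem
  have hcθ : Continuous θ := θ.continuous
  have hct : Continuous t := t.continuous
  have hcz1 : Continuous z1 := z1.continuous
  have hcz2 : Continuous z2 := z2.continuous
  have hΦc := D.emb.continuous
  have hc1 : Continuous ((↑) : ℝ → AddCircle (1:ℝ)) := AddCircle.continuous_mk' 1
  have hS1 : ∀ x ∈ S, x ∈ Icc a b ×ˢ Icc c d → D.F (θ x + τ x, t x) = w1 x ∧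
      ((D.Φ (((θ x + τ x : ℝ) : AddCircle (1:ℝ)), t x)).2 : ℝ) = w2 x := by
    intro x hx hx'
    have : θ x + τ x = θ' x := by rw [hτS x hx]; ring
    rw [this, ← htt x hx', e1', e2']
    exact ⟨rfl, rfl⟩
  obtain ⟨x, hx, y, hy, f1, f2⟩ := Pool.Agent.Helper627.PM.poincare_miranda a b c d hab.le hcd.le
    (fun x => (z2 x : ℝ) - ((D.Φ (((θ x + τ x : ℝ) : AddCircle (1:ℝ)), t x)).2 : ℝ))
    (fun x => z1 x - D.F (θ x + τ x, t x))
    (Continuous.continuousOn (by fun_prop)) (Continuous.continuousOn (by fun_prop))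
    (fun y hy => by
      have hxS : (a, y) ∈ S := Or.inl (Or.inl ⟨y, hy, rfl⟩)
      have := (hS1 _ hxS ⟨⟨le_rfl, hab.le⟩, hy⟩).1
      have h := h1 y hy
      linarith)
    (fun y hy => by
      have hxS : (b, y) ∈ S := Or.inr (Or.inl ⟨y, hy, rfl⟩)
      have := (hS1 _ hxS ⟨⟨hab.le, le_rfl⟩, hy⟩).1
      have h := h2 y hy
      linarith)
    (fun x hx => by
      have hxS : (x, c) ∈ S := Or.inl (Or.inr ⟨x, hx, rfl⟩)
      have := (hS1 _ hxS ⟨hx, ⟨le_rfl, hcd.le⟩⟩).2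
      have h := h3 x hx
      linarith)
    (fun x hx => by
      have hxS : (x, d) ∈ S := Or.inr (Or.inr ⟨x, hx, rfl⟩)
      have := (hS1 _ hxS ⟨hx, ⟨hcd.le, le_rfl⟩⟩).2
      have h := h4 x hx
      linarith)
  apply hτ0 (x, y) ⟨hx, hy⟩
  have e3 := e1 (x, y)
  have h8 : θ (x, y) + τ (x, y) = θ (x, y) := by
    apply D.inj_lift (t := t (x, y))
    · rw [e2]; linarith
    · rw [e3]
      apply Subtype.ext
      simp only
      linarith
  linarith

end Dat

end Pool.Agent.X146.Cap
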