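import Mathlib
import Pool.Agent.X146.Cap.Asy
import Pool.Agent.X146.Cap.Top
import Pool.Agent.X146.Cap.Def

set_option autoImplicit false

/-! If a neighbourhood of the boundary is foliated by invariant curves, the curvature is constant. -/

namespace Pool.Agent.X146.Cap

open Set Topology Filter Complex Asymptotics
open scoped ComplexConjugate
open Pool.Agent.H738R2.Cyl

variable {γ : ℝ → ℂ} {L : ℝ}

lemma periodic_deriv {f : ℝ → ℂ} {p : ℝ} (hf : Function.Periodic f p) :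
    Function.Periodic (deriv f) p := by
  intro x
  have h1 : deriv (fun y => f (y + p)) x = deriv f (x + p) := deriv_comp_add_const _ _ _
  rw [← h1]
  congr 1
  funext y
  exact hf y

section
variable (h : StrictlyConvexCurve γ L)
include h

lemma exists_M : ∃ M : ℝ, 0 < M ∧ ∀ x, ‖deriv (deriv γ) x‖ ≤ M := by
  have hc : Continuous (deriv (deriv γ)) := (smooth_deriv (smooth_deriv h.smooth)).continuous
  have hb := (periodic_deriv (periodic_deriv h.periodic)).isBounded_of_continuous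
    h.length_pos.ne' hc
  obtain ⟨M, hM⟩ := hb.exists_norm_le
  refine ⟨|M| + 1, by positivity, fun x => ?_⟩
  have := hM _ ⟨x, rfl⟩
  have := le_abs_self M
  linarith

lemma lip_deriv {M : ℝ} (hM : ∀ x, ‖deriv (deriv γ) x‖ ≤ M) (x y : ℝ) :
    ‖deriv γ x - deriv γ y‖ ≤ M * |x - y| := by
  have := convex_univ.norm_image_sub_le_of_norm_hasDerivWithin_le (f := deriv γ)
    (f' := deriv (deriv γ)) (C := M) (𝕜 := ℝ) (x := y) (y := x)
    (fun z _ => (smooth_hasDeriv (smooth_deriv h.smooth) z).hasDerivWithinAt)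
    (fun z _ => hM z) (mem_univ _) (mem_univ _)
  simpa [Real.norm_eq_abs] using this

lemma near_aux {M : ℝ} (hM0 : 0 < M) (hM : ∀ x, ‖deriv (deriv γ) x‖ ≤ M) (s σ r : ℝ) (hσ : 0 ≤ σ)
    (hr : r ∈ Icc s (s + σ)) : ‖conj (deriv γ r) * (γ (s + σ) - γ s) - σ‖ ≤ M * σ ^ 2 := by
  have h1 := (convex_Icc s (s + σ)).norm_image_sub_le_of_norm_hasDerivWithin_le
    (f := fun x => γ x - (x : ℂ) * deriv γ r)
    (f' := fun x => deriv γ x - deriv γ r) (C := M * σ) (𝕜 := ℝ) (x := s) (y := s + σ)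
    (fun z _ => by
      have h1 := smooth_hasDeriv h.smooth z
      have h2 : HasDerivAt (fun σ : ℝ => (σ : ℂ)) 1 z := ofRealCLM.hasDerivAt
      have := h1.sub (h2.mul_const (deriv γ r))
      rw [one_mul] at this
      exact this.hasDerivWithinAt)
    (fun z hz => by
      refine (lip_deriv h hM z r).trans ?_
      have : |z - r| ≤ σ := by
        rw [abs_le]
        constructor <;> linarith [hz.1, hz.2, hr.1, hr.2]
      exact mul_le_mul_of_nonneg_left this hM0.le)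
    ⟨le_rfl, by linarith⟩ ⟨by linarith, le_rfl⟩
  have e : conj (deriv γ r) * (γ (s + σ) - γ s) - σ
      = conj (deriv γ r) * ((γ (s + σ) - ((s + σ : ℝ) : ℂ) * deriv γ r)
        - (γ s - (s:ℂ) * deriv γ r)) := by
    push_cast
    linear_combination (σ:ℂ) * conj_mul_self h r
  rw [e, norm_mul, RCLike.norm_conj, h.unit_speed, one_mul]
  refine h1.trans (le_of_eq ?_)
  have : s + σ - s = σ := by ring
  rw [this, Real.norm_eq_abs, abs_of_nonneg hσ]
  ring

lemma near0 {M : ℝ} (hM0 : 0 < M) (hM : ∀ x, ‖deriv (deriv γ) x‖ ≤ M) (s σ : ℝ) (hσ : 0 ≤ σ) :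
    ‖A0 γ s (s + σ) - σ‖ ≤ M * σ ^ 2 :=
  near_aux h hM0 hM s σ s hσ ⟨le_rfl, by linarith⟩

lemma near1 {M : ℝ} (hM0 : 0 < M) (hM : ∀ x, ‖deriv (deriv γ) x‖ ≤ M) (s σ : ℝ) (hσ : 0 ≤ σ) :
    ‖A1 γ s (s + σ) - σ‖ ≤ M * σ ^ 2 :=
  near_aux h hM0 hM s σ (s + σ) hσ ⟨by linarith, le_rfl⟩

omit h in
lemma arg_small (ε : ℝ) (hε : 0 < ε) : ∃ η > 0, ∀ (z : ℂ) (σ : ℝ), 0 < σ → ‖z - σ‖ < η * σ →
    |arg z| < ε := by
  have hc : ContinuousAt arg 1 := continuousAt_arg one_mem_slitPlane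
  obtain ⟨η, hη, hb⟩ := Metric.continuousAt_iff.mp hc ε hε
  refine ⟨η, hη, fun z σ hσ hz => ?_⟩
  have hσ' : (σ:ℂ) ≠ 0 := by exact_mod_cast hσ.ne'
  have h1 : dist (z / σ) 1 < η := by
    rw [dist_eq_norm, div_sub_one hσ', norm_div, Complex.norm_real, Real.norm_eq_abs,
      abs_of_pos hσ, div_lt_iff₀ hσ]
    exact hz
  have h2 := hb h1
  rw [Real.dist_eq, arg_one, sub_zero] at h2
  have h3 : arg z = arg (z / σ) := by
    have : z = σ * (z / σ) := by field_simp
    conv_lhs => rw [this]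
    exact arg_real_mul _ hσ
  rw [h3]; exact h2

/-- both angles are small for short chords -/
lemma small_angles (ε : ℝ) (hε : 0 < ε) : ∃ δ > 0, δ < L ∧ ∀ s σ : ℝ, 0 < σ → σ ≤ δ →
    al γ s (s + σ) < ε ∧ al1 γ s (s + σ) < ε := by
  obtain ⟨M, hM0, hM⟩ := exists_M h
  obtain ⟨η, hη, hb⟩ := arg_small ε hε
  have hL := h.length_pos
  refine ⟨min (L / 2) (η / (2 * M)), by positivity, lt_of_le_of_lt (min_le_left _ _) (by linarith),
    fun s σ h0 h1 => ?_⟩
  have h2 : σ ≤ η / (2 * M) := h1.trans (min_le_right _ _)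
  have h3 : M * σ ^ 2 < η * σ := by
    rw [le_div_iff₀ (by positivity)] at h2
    nlinarith
  constructor
  · exact (le_abs_self _).trans_lt (hb _ σ h0 ((near0 h hM0 hM s σ h0.le).trans_lt h3))
  · have : ‖conj (A1 γ s (s + σ)) - σ‖ < η * σ := by
      have e : conj (A1 γ s (s + σ)) - σ = conj (A1 γ s (s + σ) - σ) := by
        rw [map_sub, conj_ofReal]
      rw [e, RCLike.norm_conj]
      exact (near1 h hM0 hM s σ h0.le).trans_lt h3
    exact (le_abs_self _).trans_lt (hb _ σ h0 this)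

/-- the cotangent of the angle of arrival is large for short chords -/
lemma large_cot (K δ : ℝ) (hδ : 0 < δ) : ∃ σ, 0 < σ ∧ σ < δ ∧ σ < L ∧
    ∀ s : ℝ, K < Real.cot (al1 γ s (s + σ)) := by
  obtain ⟨M, hM0, hM⟩ := exists_M h
  have hL := h.length_pos
  let K' := |K| + 1
  have hK' : 0 < K' := by positivity
  let σ := min (min (δ / 2) (L / 2)) (1 / (M * (K' + 1)))
  have hσ : 0 < σ := by positivity
  have h1 : σ ≤ δ / 2 := (min_le_left _ _).trans (min_le_left _ _)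
  have h2 : σ ≤ L / 2 := (min_le_left _ _).trans (min_le_right _ _)
  have h3 : σ ≤ 1 / (M * (K' + 1)) := min_le_right _ _
  refine ⟨σ, hσ, by linarith, by linarith, fun s => ?_⟩
  have hs1 : s < s + σ := by linarith
  have hs2 : s + σ < s + L := by linarith
  rw [cot_al1 h hs1 hs2]
  have n1 := near1 h hM0 hM s σ hσ.le
  have im1 := A1_im h hs1 hs2
  have hre : σ - M * σ ^ 2 ≤ (A1 γ s (s + σ)).re := by
    have := (abs_re_le_norm (A1 γ s (s + σ) - σ)).trans n1
    rw [sub_re, ofReal_re, abs_le] at this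
    linarith [this.1]
  have him : -(A1 γ s (s + σ)).im ≤ M * σ ^ 2 := by
    have := (abs_im_le_norm (A1 γ s (s + σ) - σ)).trans n1
    rw [sub_im, ofReal_im, sub_zero, abs_le] at this
    linarith [this.1]
  rw [lt_div_iff₀ (by linarith)]
  rw [le_div_iff₀ (by positivity)] at h3
  have h4 : K < K' := by
    have := le_abs_self K
    simp only [K']; linarith
  have h5 : K * -(A1 γ s (s + σ)).im < K' * -(A1 γ s (s + σ)).im :=
    mul_lt_mul_of_pos_right h4 (by linarith)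
  have h6 : K' * -(A1 γ s (s + σ)).im ≤ K' * (M * σ ^ 2) := mul_le_mul_of_nonneg_left him hK'.le
  have h7 : K' * (M * σ ^ 2) ≤ σ - M * σ ^ 2 := by nlinarith
  linarith

lemma T_apply {T₁ : PhaseCylinder L → PhaseCylinder L} (hT : IsBilliardMap γ L T₁) (d : ℝ)
    {s s₁ : ℝ} (h1 : s < s₁) (h2 : s₁ < s + L) :
    (cylinderMap L d ∘ T₁) ((s : AddCircle L), ⟨al γ s s₁, al_mem h h1 h2⟩)
      = (((s₁ + d * Real.cot (al1 γ s s₁) : ℝ) : AddCircle L), ⟨al1 γ s s₁, al1_mem h h1 h2⟩) := by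
  have := hT.eq_of_chord (α := ⟨al γ s s₁, al_mem h h1 h2⟩)
    (α₁ := ⟨al1 γ s s₁, al1_mem h h1 h2⟩) h (chord_of h h1 h2)
  rw [Function.comp_apply, this, cylinderMap]
  refine Prod.ext ?_ rfl
  simp only
  rw [AddCircle.coe_add]

omit h in
lemma coe_sub_nat_mul (p a : ℝ) (n : ℕ) : ((a - n * p : ℝ) : AddCircle p) = (a : AddCircle p) := by
  have := coe_add_int_mul p a (-(n:ℤ))
  rw [← this]
  congr 1
  push_cast
  ring

lemma continuous_A0 : Continuous fun p : ℝ × ℝ => A0 γ p.1 p.2 := by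
  have h1 : Continuous γ := h.smooth.continuous
  have h2 : Continuous (deriv γ) := (smooth_deriv h.smooth).continuous
  unfold A0
  fun_prop

lemma continuous_A1 : Continuous fun p : ℝ × ℝ => A1 γ p.1 p.2 := by
  have h1 : Continuous γ := h.smooth.continuous
  have h2 : Continuous (deriv γ) := (smooth_deriv h.smooth).continuous
  unfold A1
  fun_prop

omit h in
lemma continuous_arg_of {X : Type*} [TopologicalSpace X] {f : X → ℂ} (hf : Continuous f)
    (h : ∀ x, 0 < (f x).im) : Continuous fun x => arg (f x) := by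
  rw [continuous_iff_continuousAt]
  intro x
  exact (continuousAt_arg (Or.inr (h x).ne')).comp hf.continuousAt

/-- **No foliation near the boundary if the curvature increases at one point and decreases at
another one.** -/
theorem not_foliated {T₁ : PhaseCylinder L → PhaseCylinder L} (hT : IsBilliardMap γ L T₁)
    {d : ℝ} (hd : 0 < d) (hF : IsIntegrableNearBoundary (cylinderMap L d ∘ T₁))
    (b c : ℝ) (hbc : b < c) (hb : 0 < cud γ b) (hc : cud γ c < 0) : False := by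
  obtain ⟨ε, Φ, hε, hΦ, hr, hinv⟩ := hF
  have hL := h.length_pos
  obtain ⟨δ1, hδ1, sgn1⟩ := sign_pos h b hb
  obtain ⟨δ2, hδ2, sgn2⟩ := sign_neg h c hc
  obtain ⟨δ3, hδ3, hδL, small⟩ := small_angles h ε hε
  -- the longest chord
  obtain ⟨σ0, hσ0, s1, s2, s3⟩ : ∃ σ0 : ℝ, 0 < σ0 ∧ σ0 < δ1 ∧ σ0 < δ2 ∧ σ0 ≤ δ3 := by
    refine ⟨min (min δ1 δ2 / 2) δ3, by positivity, ?_, ?_, min_le_right _ _⟩
    · have h1 : min δ1 δ2 ≤ δ1 := min_le_left _ _
      have h2 : 0 < min δ1 δ2 := lt_min hδ1 hδ2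
      exact lt_of_le_of_lt (min_le_left _ _) (by linarith)
    · have h1 : min δ1 δ2 ≤ δ2 := min_le_right _ _
      have h2 : 0 < min δ1 δ2 := lt_min hδ1 hδ2
      exact lt_of_le_of_lt (min_le_left _ _) (by linarith)
  have hσL : σ0 < L := by linarith
  -- the integer `k`
  have hcA1 := continuous_A1 h
  have hcA0 := continuous_A0 h
  obtain ⟨K, hK⟩ : ∃ K : ℝ, ∀ s ∈ Icc b c, Real.cot (al1 γ s (s + σ0)) ≤ K := by
    have hcont : Continuous fun s : ℝ => Real.cot (al1 γ s (s + σ0)) := by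
      have e : (fun s : ℝ => Real.cot (al1 γ s (s + σ0)))
          = fun s => (A1 γ s (s + σ0)).re / (-(A1 γ s (s + σ0)).im) := by
        funext s
        exact cot_al1 h (by linarith) (by linarith)
      rw [e]
      have : Continuous fun s : ℝ => A1 γ s (s + σ0) := hcA1.comp (f := fun s => (s, s + σ0))
        (by fun_prop)
      refine Continuous.div (continuous_re.comp this) (continuous_im.comp this).neg fun s => ?_
      have := A1_im h (s := s) (s₁ := s + σ0) (by linarith) (by linarith)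
      linarith
    obtain ⟨K, hK⟩ := (isCompact_Icc.image hcont).bddAbove
    exact ⟨K, fun s hs => hK ⟨s, hs, rfl⟩⟩
  obtain ⟨k, hk⟩ := exists_nat_gt ((σ0 + d * K) / L)
  rw [div_lt_iff₀ hL] at hk
  -- the shortest chord
  obtain ⟨σ1, hσ1, hσ10, -, hcot⟩ := large_cot h (k * L / d) σ0 hσ0
  -- the clamped parameters
  let S : ℝ × ℝ → ℝ := fun p => (projIcc b c hbc.le p.2 : ℝ)
  let Sg : ℝ × ℝ → ℝ := fun p => (projIcc σ1 σ0 hσ10.le p.1 : ℝ)
  have hS : Continuous S := continuous_subtype_val.comp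
    ((continuous_projIcc (h := hbc.le)).comp continuous_snd)
  have hG : Continuous Sg := continuous_subtype_val.comp
    ((continuous_projIcc (h := hσ10.le)).comp continuous_fst)
  have hSm : ∀ p, S p ∈ Icc b c := fun p => (projIcc b c hbc.le p.2).2
  have hGm : ∀ p, Sg p ∈ Icc σ1 σ0 := fun p => (projIcc σ1 σ0 hσ10.le p.1).2
  have hSid : ∀ p : ℝ × ℝ, p.2 ∈ Icc b c → S p = p.2 := fun p hp => by
    simp only [S]; rw [projIcc_of_mem hbc.le hp]
  have hGid : ∀ p : ℝ × ℝ, p.1 ∈ Icc σ1 σ0 → Sg p = p.1 := fun p hp => by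
    simp only [Sg]; rw [projIcc_of_mem hσ10.le hp]
  have g1 : ∀ p, S p < S p + Sg p := fun p => by linarith [(hGm p).1]
  have g2 : ∀ p, S p + Sg p < S p + L := fun p => by linarith [(hGm p).2]
  have cA0 : Continuous fun p => A0 γ (S p) (S p + Sg p) :=
    hcA0.comp (f := fun p => (S p, S p + Sg p)) (by fun_prop)
  have cA1 : Continuous fun p => A1 γ (S p) (S p + Sg p) :=
    hcA1.comp (f := fun p => (S p, S p + Sg p)) (by fun_prop)
  have cal : Continuous fun p => al γ (S p) (S p + Sg p) :=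
    continuous_arg_of cA0 fun p => A0_im h (g1 p) (g2 p)
  have cal1 : Continuous fun p => al1 γ (S p) (S p + Sg p) := by
    refine continuous_arg_of (continuous_conj.comp cA1) fun p => ?_
    rw [conj_im]; linarith [A1_im h (g1 p) (g2 p)]
  have ccot : Continuous fun p => Real.cot (al1 γ (S p) (S p + Sg p)) := by
    have e : (fun p => Real.cot (al1 γ (S p) (S p + Sg p)))
        = fun p => (A1 γ (S p) (S p + Sg p)).re / (-(A1 γ (S p) (S p + Sg p)).im) := by
      funext p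
      exact cot_al1 h (g1 p) (g2 p)
    rw [e]
    refine Continuous.div (continuous_re.comp cA1) (continuous_im.comp cA1).neg fun p => ?_
    have := A1_im h (g1 p) (g2 p)
    linarith
  let z1 : C(ℝ × ℝ, ℝ) := ⟨S, hS⟩
  let w1 : C(ℝ × ℝ, ℝ) :=
    ⟨fun p => S p + Sg p + d * Real.cot (al1 γ (S p) (S p + Sg p)) - k * L, by fun_prop⟩
  let z2 : C(ℝ × ℝ, Ioo (0:ℝ) Real.pi) :=
    ⟨fun p => ⟨al γ (S p) (S p + Sg p), al_mem h (g1 p) (g2 p)⟩, by fun_prop⟩
  let w2 : C(ℝ × ℝ, Ioo (0:ℝ) Real.pi) :=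
    ⟨fun p => ⟨al1 γ (S p) (S p + Sg p), al1_mem h (g1 p) (g2 p)⟩, by fun_prop⟩
  have hsm : ∀ p, al γ (S p) (S p + Sg p) < ε ∧ al1 γ (S p) (S p + Sg p) < ε := fun p =>
    small _ _ (by linarith [(hGm p).1]) (by linarith [(hGm p).2])
  refine (Dat.mk Φ hΦ hL hε hr).index_zero z1 w1 z2 w2 (fun p => (hsm p).1) (fun p => (hsm p).2)
    σ1 σ0 b c hσ10 hbc ?_ ?_ ?_ ?_ ?_
  · intro p _
    obtain ⟨⟨θ, t⟩, hθ⟩ := hr (show ((z1 p : AddCircle L), z2 p) ∈ _ from (hsm p).1)
    obtain ⟨-, -, -, -, hTΓ⟩ := hinv t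
    have hmem : ((z1 p : AddCircle L), z2 p) ∈ leaf Φ t := ⟨θ, hθ⟩
    have h2 : (cylinderMap L d ∘ T₁) ((z1 p : AddCircle L), z2 p) ∈ leaf Φ t := by
      rw [← hTΓ]; exact ⟨_, hmem, rfl⟩
    obtain ⟨θ', hθ'⟩ := h2
    refine ⟨t, θ, θ', hθ, ?_⟩
    have h3 := T_apply h hT d (g1 p) (g2 p)
    change Φ (θ', t) = _
    have h4 : Φ (θ', t) = (cylinderMap L d ∘ T₁) ((z1 p : AddCircle L), z2 p) := hθ'
    rw [h4]
    refine h3.trans ?_
    refine Prod.ext ?_ rfl
    exact (coe_sub_nat_mul L _ k).symm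
  · intro y hy
    have e1 : S (σ1, y) = y := hSid _ hy
    have e2 : Sg (σ1, y) = σ1 := hGid _ ⟨le_rfl, hσ10.le⟩
    change S (σ1, y) < S (σ1, y) + Sg (σ1, y)
      + d * Real.cot (al1 γ (S (σ1, y)) (S (σ1, y) + Sg (σ1, y))) - k * L
    rw [e1, e2]
    have := hcot y
    rw [div_lt_iff₀ hd] at this
    linarith
  · intro y hy
    have e1 : S (σ0, y) = y := hSid _ hy
    have e2 : Sg (σ0, y) = σ0 := hGid _ ⟨hσ10.le, le_rfl⟩
    change S (σ0, y) + Sg (σ0, y)
      + d * Real.cot (al1 γ (S (σ0, y)) (S (σ0, y) + Sg (σ0, y))) - k * L < S (σ0, y)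
    rw [e1, e2]
    have := mul_le_mul_of_nonneg_left (hK y hy) hd.le
    linarith
  · intro x hx
    have e1 : S (x, b) = b := hSid _ ⟨le_rfl, hbc.le⟩
    have e2 : Sg (x, b) = x := hGid _ hx
    change al γ (S (x, b)) (S (x, b) + Sg (x, b)) < al1 γ (S (x, b)) (S (x, b) + Sg (x, b))
    rw [e1, e2]
    exact al_lt_al1 h (by linarith [hx.1]) (by linarith [hx.2])
      (sgn1 x (by linarith [hx.1]) (by linarith [hx.2]))
  · intro x hx
    have e1 : S (x, c) = c := hSid _ ⟨hbc.le, le_rfl⟩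
    have e2 : Sg (x, c) = x := hGid _ hx
    change al1 γ (S (x, c)) (S (x, c) + Sg (x, c)) < al γ (S (x, c)) (S (x, c) + Sg (x, c))
    rw [e1, e2]
    exact al1_lt_al h (by linarith [hx.1]) (by linarith [hx.2])
      (sgn2 x (by linarith [hx.1]) (by linarith [hx.2]))

end

end Pool.Agent.X146.Cap
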