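import Mathlib
import Pool.Agent.X146.Cap.Main

set_option autoImplicit false

/-! Classification: constant curvature, circles, and the equivalence. -/

namespace Pool.Agent.X146.Cap

open Set Topology Filter Complex Asymptotics
open scoped ComplexConjugate
open Pool.Agent.H738R2.Cyl

variable {γ : ℝ → ℂ} {L : ℝ}

section
variable (h : StrictlyConvexCurve γ L)
include h

lemma cu_hasDeriv (s : ℝ) : HasDerivAt (cu γ) (cud γ s) s := by
  have h1 := smooth_hasDeriv (smooth_deriv h.smooth) s
  have h2 := smooth_hasDeriv (smooth_deriv (smooth_deriv h.smooth)) s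
  have h3 := ((re_hasDeriv h1).mul (im_hasDeriv h2)).sub ((im_hasDeriv h1).mul (re_hasDeriv h2))
  have e : cu γ = fun s => (deriv γ s).re * (deriv (deriv γ) s).im
      - (deriv γ s).im * (deriv (deriv γ) s).re := by
    funext s; simp only [cu, mul_im, conj_re, conj_im]; ring
  rw [e]
  convert! h3 using 1
  simp only [cud, mul_im, conj_re, conj_im]; ring

lemma cu_periodic : Function.Periodic (cu γ) L := by
  intro s
  simp only [cu]
  rw [periodic_deriv h.periodic s, periodic_deriv (periodic_deriv h.periodic) s]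

lemma cud_periodic : Function.Periodic (cud γ) L := by
  intro s
  simp only [cud]
  rw [periodic_deriv h.periodic s,
    periodic_deriv (periodic_deriv (periodic_deriv h.periodic)) s]

omit h in
/-- a monotone periodic function is constant -/
lemma const_of_mono {f : ℝ → ℝ} {p : ℝ} (hp : 0 < p) (hf : Function.Periodic f p)
    (hm : Monotone f) (x y : ℝ) : f x = f y := by
  wlog hxy : x ≤ y generalizing x y
  · exact (this y x (by linarith)).symm
  obtain ⟨n, hn⟩ := exists_nat_gt ((y - x) / p)
  rw [div_lt_iff₀ hp] at hn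
  have h1 : f x ≤ f y := hm hxy
  have h2 : f y ≤ f (x + n • p) := hm (by rw [nsmul_eq_mul]; linarith)
  rw [hf.nsmul n x] at h2
  linarith

lemma both_signs (hne : ∃ s, cud γ s ≠ 0) : ∃ b c, b < c ∧ 0 < cud γ b ∧ cud γ c < 0 := by
  have hL := h.length_pos
  have hdiff : Differentiable ℝ (cu γ) := fun s => (cu_hasDeriv h s).differentiableAt
  have hder : ∀ s, deriv (cu γ) s = cud γ s := fun s => (cu_hasDeriv h s).deriv
  have hc : ∀ x : ℝ, (∀ y, cu γ x = cu γ y) → ∀ s, cud γ s = 0 := by
    intro x hx s
    have e : cu γ = fun _ => cu γ x := funext fun y => (hx y).symm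
    rw [← hder s, e, deriv_const]
  obtain ⟨s, hs⟩ := hne
  have hpos : ∃ b, 0 < cud γ b := by
    by_contra hcon
    push Not at hcon
    have hm : Antitone (cu γ) := antitone_of_deriv_nonpos hdiff fun x => by
      rw [hder]; exact hcon x
    refine hs (hc 0 (fun y => ?_) s)
    have := const_of_mono (f := fun x => - cu γ x) hL (fun x => by
      have := cu_periodic h x; simp only [this]) (fun a b hab => neg_le_neg (hm hab)) 0 y
    linarith
  have hneg : ∃ b, cud γ b < 0 := by
    by_contra hcon
    push Not at hcon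
    have hm : Monotone (cu γ) := monotone_of_deriv_nonneg hdiff fun x => by
      rw [hder]; exact hcon x
    exact hs (hc 0 (fun y => const_of_mono hL (cu_periodic h) hm 0 y) s)
  obtain ⟨b, hb⟩ := hpos
  obtain ⟨c, hc'⟩ := hneg
  obtain ⟨n, hn⟩ := exists_nat_gt ((b - c) / L)
  rw [div_lt_iff₀ hL] at hn
  refine ⟨b, c + n • L, by rw [nsmul_eq_mul]; linarith, hb, ?_⟩
  rw [(cud_periodic h).nsmul n c]
  exact hc'

/-- constant curvature: a circle -/
lemma circle_of_cud (h0 : ∀ s, cud γ s = 0) :
    ∃ (p : ℂ) (r : ℝ), 0 < r ∧ range γ = Metric.sphere p r := by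
  have hL := h.length_pos
  have hdiff : Differentiable ℝ (cu γ) := fun s => (cu_hasDeriv h s).differentiableAt
  have hk : ∀ s, cu γ s = cu γ 0 := fun s =>
    is_const_of_deriv_eq_zero hdiff (fun x => by rw [(cu_hasDeriv h x).deriv, h0 x]) s 0
  set k := cu γ 0 with hkdef
  have h2 : ∀ s, deriv (deriv γ) s = (k * I) * deriv γ s := by
    intro s
    have := p_eq h s
    rw [hk s] at this
    linear_combination deriv γ s * this - deriv (deriv γ) s * conj_mul_self h s
  have hk0 : k ≠ 0 := by
    intro hk0
    have h3 : ∀ s, deriv γ s = deriv γ 0 := fun s =>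
      is_const_of_deriv_eq_zero (contDiff_infty_iff_deriv.mp (smooth_deriv h.smooth)).1 (fun x => by
        rw [h2 x, hk0]; simp) s 0
    have h4 : ∀ s, γ s - s * deriv γ 0 = γ 0 - (0:ℝ) * deriv γ 0 := fun s =>
      is_const_of_deriv_eq_zero (f := fun s : ℝ => γ s - s * deriv γ 0)
        (fun x => (((smooth_hasDeriv h.smooth x).sub
          ((ofRealCLM.hasDerivAt (x := x)).mul_const (deriv γ 0))).differentiableAt))
        (fun x => by
          have := ((smooth_hasDeriv h.smooth x).sub
            ((ofRealCLM.hasDerivAt (x := x)).mul_const (deriv γ 0))).deriv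
          refine Eq.trans ?_ (this.trans ?_)
          · rfl
          · rw [h3 x]; simp) s 0
    have h5 := h4 L
    have h6 := h.periodic 0
    rw [zero_add] at h6
    rw [h6] at h5
    have h7 : (L:ℂ) * deriv γ 0 = 0 := by
      push_cast at h5
      linear_combination -h5
    rcases mul_eq_zero.mp h7 with h8 | h8
    · exact hL.ne' (by exact_mod_cast h8)
    · exact deriv_ne_zero_of h 0 h8
  have hkI : (k * I : ℂ) ≠ 0 := mul_ne_zero (by exact_mod_cast hk0) I_ne_zero
  have hcen : ∀ s, γ s - deriv γ s / (k * I) = γ 0 - deriv γ 0 / (k * I) := fun s =>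
    is_const_of_deriv_eq_zero (f := fun s : ℝ => γ s - deriv γ s / (k * I))
      (fun x => ((smooth_hasDeriv h.smooth x).sub
        ((smooth_hasDeriv (smooth_deriv h.smooth) x).div_const (k * I))).differentiableAt)
      (fun x => by
        have := ((smooth_hasDeriv h.smooth x).sub
          ((smooth_hasDeriv (smooth_deriv h.smooth) x).div_const (k * I))).deriv
        refine Eq.trans ?_ (this.trans ?_)
        · rfl
        · rw [h2 x, mul_div_cancel_left₀ _ hkI, sub_self]) s 0
  have hexp : ∀ s : ℝ, deriv γ s * exp (-(k * I) * s) = deriv γ 0 * exp (-(k * I) * (0:ℝ)) := by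
    intro s
    have hd : ∀ x : ℝ, HasDerivAt (fun s : ℝ => deriv γ s * exp (-(k * I) * s)) 0 x := by
      intro x
      have e1 := smooth_hasDeriv (smooth_deriv h.smooth) x
      have e2 : HasDerivAt (fun s : ℝ => exp (-(k * I) * s))
          (exp (-(k * I) * x) * (-(k * I) * 1)) x :=
        (((ofRealCLM.hasDerivAt (x := x)).const_mul (-(k * I))).cexp)
      have e3 := e1.mul e2
      rw [h2 x] at e3
      convert! e3 using 1
      ring
    exact is_const_of_deriv_eq_zero (fun x => (hd x).differentiableAt) (fun x => (hd x).deriv) s 0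
  refine ⟨γ 0 - deriv γ 0 / (k * I), 1 / |k|, by positivity, ?_⟩
  have hnorm : ∀ z : ℂ, ‖z / (k * I)‖ = ‖z‖ * (1 / |k|) := by
    intro z
    rw [norm_div, norm_mul, norm_I, Complex.norm_real, Real.norm_eq_abs]; ring
  apply Subset.antisymm
  · rintro _ ⟨s, rfl⟩
    rw [mem_sphere_iff_norm, ← hcen s]
    have : γ s - (γ s - deriv γ s / (k * I)) = deriv γ s / (k * I) := by ring
    rw [this, hnorm, h.unit_speed, one_mul]
  · intro w hw
    rw [mem_sphere_iff_norm] at hw
    set v := (w - (γ 0 - deriv γ 0 / (k * I))) * (k * I) with hv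
    have hv1 : ‖v‖ = 1 := by
      rw [hv, norm_mul, hw, norm_mul, norm_I, Complex.norm_real, Real.norm_eq_abs]
      have : |k| ≠ 0 := abs_ne_zero.mpr hk0
      field_simp
    have hu1 : ‖v / deriv γ 0‖ = 1 := by rw [norm_div, hv1, h.unit_speed, div_one]
    have hu2 := norm_mul_exp_arg_mul_I (v / deriv γ 0)
    rw [hu1, ofReal_one, one_mul] at hu2
    refine ⟨arg (v / deriv γ 0) / k, ?_⟩
    set s := arg (v / deriv γ 0) / k with hs
    have h8 : deriv γ s = v := by
      have e1 := hexp s
      have e2 : -(k * I) * (s:ℂ) = -(arg (v / deriv γ 0) * I) := by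
        rw [hs]; push_cast
        have : (k:ℂ) ≠ 0 := by exact_mod_cast hk0
        field_simp
      rw [e2, exp_neg, hu2] at e1
      simp only [ofReal_zero, mul_zero, exp_zero, mul_one] at e1
      have hd := deriv_ne_zero_of h 0
      have hv0 : v ≠ 0 := by
        intro h0; rw [h0, norm_zero] at hv1; exact zero_ne_one hv1
      rw [inv_div] at e1
      field_simp at e1
      exact e1
    have h9 := hcen s
    rw [h8] at h9
    have : γ s = (γ 0 - deriv γ 0 / (k * I)) + v / (k * I) := by linear_combination h9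
    rw [this, hv, mul_div_cancel_right₀ _ hkI]
    ring

end

end Pool.Agent.X146.Cap
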