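import Mathlib
import Pool.Agent.X146.Cap.Fin

set_option autoImplicit false

/-! The circle; existence of the billiard map; the equivalence. -/

namespace Pool.Agent.X146.Cap

open Set Topology Filter Complex
open scoped ComplexConjugate
open Pool.Agent.H738R2.Cyl

variable {γ : ℝ → ℂ} {L : ℝ}

/-- a map `S¹ → S¹ × Y` with first coordinate `x ↦ L x` is not contractible -/
lemma not_nullhomotopic {Y : Type*} [TopologicalSpace Y] (hL : 0 < L)
    (c : C(AddCircle (1:ℝ), AddCircle L × Y))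
    (hc : ∀ x : ℝ, (c (x : AddCircle (1:ℝ))).1 = ((x * L : ℝ) : AddCircle L)) :
    ¬ c.Nullhomotopic := by
  rintro ⟨y, ⟨H⟩⟩
  have hc1 : Continuous ((↑) : ℝ → AddCircle (1:ℝ)) := AddCircle.continuous_mk' 1
  have hpr : Continuous (projIcc (0:ℝ) 1 zero_le_one) := continuous_projIcc
  obtain ⟨G, hG⟩ := exists_lift (X := ℝ × ℝ) L
    ⟨fun p => (H (projIcc 0 1 zero_le_one p.2, (p.1 : AddCircle (1:ℝ)))).1, by fun_prop⟩
  have e1 := const_of_coe (X := ℝ × ℝ) L (fun p => G (p.1 + 1, p.2) - G p) (by fun_prop) (by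
    intro x
    rw [AddCircle.coe_sub, hG, hG]
    simp) (0, 0) (0, 1)
  have e2 := const_of_coe (X := ℝ) L (fun x => G (x, 1) - G (0, 1)) (by fun_prop) (by
    intro x
    rw [AddCircle.coe_sub, hG, hG]
    simp) 1 0
  have e3 := const_of_coe (X := ℝ) L (fun x => G (x, 0) - x * L) (by fun_prop) (by
    intro x
    rw [AddCircle.coe_sub, hG]
    simp [hc]) 1 0
  simp only [zero_add] at e1
  simp only [sub_self] at e2
  linarith

/-- `ℝ ≃ₜ (0, π)` -/
noncomputable def hR : ℝ ≃ₜ Ioo (0:ℝ) Real.pi where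
  toFun t := ⟨Real.arctan t + Real.pi / 2, by
    have h1 := Real.neg_pi_div_two_lt_arctan t
    have h2 := Real.arctan_lt_pi_div_two t
    constructor <;> linarith⟩
  invFun a := Real.tan (a - Real.pi / 2)
  left_inv t := by simp [Real.tan_arctan]
  right_inv a := by
    apply Subtype.ext
    simp only
    rw [Real.arctan_tan]
    · ring
    · have := a.2.1; linarith
    · have := a.2.2; linarith
  continuous_toFun := by
    have := Real.continuous_arctan
    fun_prop
  continuous_invFun := by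
    have h := Real.continuousOn_tan_Ioo
    rw [continuous_iff_continuousAt]
    intro a
    have ha : (a:ℝ) - Real.pi / 2 ∈ Ioo (-(Real.pi / 2)) (Real.pi / 2) := by
      have h1 := a.2.1
      have h2 := a.2.2
      constructor <;> linarith
    have h3 := (h.continuousAt (isOpen_Ioo.mem_nhds ha))
    exact ContinuousAt.comp (f := fun a : Ioo (0:ℝ) Real.pi => (a:ℝ) - Real.pi / 2) h3
      (by fun_prop)

section
variable (h : StrictlyConvexCurve γ L)
include h

lemma tangent_circle {p : ℂ} {r : ℝ} (hr : 0 < r) (hγ : range γ = Metric.sphere p r) (s : ℝ) :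
    deriv γ s = I * (γ s - p) / r := by
  have hn : ∀ x, ‖γ x - p‖ = r := fun x => by
    have : γ x ∈ Metric.sphere p r := by rw [← hγ]; exact ⟨x, rfl⟩
    rwa [mem_sphere_iff_norm] at this
  have hsq : ∀ x, (γ x - p).re ^ 2 + (γ x - p).im ^ 2 = r ^ 2 := fun x => by
    rw [← hn x, ← Complex.sq_norm_sub_sq_re (γ x - p)]; ring
  -- orthogonality
  have h1 := (smooth_hasDeriv h.smooth s).sub_const p
  have h2 := ((re_hasDeriv h1).pow 2).add ((im_hasDeriv h1).pow 2)
  have h3 : (fun y => (γ y - p).re ^ 2 + (γ y - p).im ^ 2) = fun _ => r ^ 2 := funext hsq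
  have h4 : HasDerivAt (fun y => (γ y - p).re ^ 2 + (γ y - p).im ^ 2) 0 s := by
    rw [h3]; exact hasDerivAt_const s _
  have h5 := h4.unique h2
  norm_num at h5
  have h6 := sq1 h s
  have h7 := hsq s
  -- the antipodal point
  obtain ⟨s', hs'⟩ : ∃ s', γ s' = p - (γ s - p) := by
    have : p - (γ s - p) ∈ Metric.sphere p r := by
      rw [mem_sphere_iff_norm]
      have : p - (γ s - p) - p = -(γ s - p) := by ring
      rw [this, norm_neg, hn]
    rw [← hγ] at this
    exact this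
  have hne : γ s' ≠ γ s := by
    intro he
    rw [he] at hs'
    have h0 : γ s - p = 0 := by linear_combination (1/2 : ℂ) * hs'
    have := hn s
    rw [h0, norm_zero] at this
    exact hr.ne this
  have h8 := h.strictly_convex s s' hne
  rw [hs'] at h8
  have e8 : (starRingEnd ℂ) (deriv γ s) * (p - (γ s - p) - γ s)
      = -2 * (conj (deriv γ s) * (γ s - p)) := by ring
  rw [e8] at h8
  have hur : (γ s).re - p.re = (γ s - p).re := (sub_re _ _).symm
  have hui : (γ s).im - p.im = (γ s - p).im := (sub_im _ _).symm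
  rw [hur, hui] at h5
  clear hur hui
  generalize hu : γ s - p = u at *
  generalize hv : deriv γ s = v at *
  simp only [mul_im, conj_re, conj_im, neg_re, neg_im] at h8
  norm_num at h8
  -- `h5 : u.re * v.re + u.im * v.im = 0`, `h6 : |v| = 1`, `h7 : |u| = r`
  have h5' : u.re * v.re + u.im * v.im = 0 := by linarith
  have h9 : u.im * v.re - u.re * v.im < 0 := by nlinarith
  have h10 : (u.im * v.re - u.re * v.im) ^ 2 = r ^ 2 := by
    have : (u.im * v.re - u.re * v.im) ^ 2 = (u.re ^ 2 + u.im ^ 2) * (v.re ^ 2 + v.im ^ 2)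
      - (u.re * v.re + u.im * v.im) ^ 2 := by ring
    rw [this, h5', h6, h7]; ring
  have h11 : u.im * v.re - u.re * v.im = -r := by
    have : (u.im * v.re - u.re * v.im - r) * (u.im * v.re - u.re * v.im + r) = 0 := by
      linear_combination h10
    rcases mul_eq_zero.mp this with h12 | h12
    · linarith
    · linarith
  have hr' : (r:ℂ) ≠ 0 := by exact_mod_cast hr.ne'
  rw [eq_div_iff hr']
  apply Complex.ext
  · simp only [mul_re, ofReal_re, ofReal_im, I_re, I_im]
    -- v.re * r = - u.im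
    linear_combination v.re * h11 + v.im * h5' - u.im * h6
  · simp only [mul_im, ofReal_re, ofReal_im, I_re, I_im]
    linear_combination v.im * h11 - v.re * h5' + u.re * h6

lemma chord_circle_angle {p : ℂ} {r : ℝ} (hr : 0 < r) (hγ : range γ = Metric.sphere p r)
    {s s₁ α α₁ : ℝ} (hα : α ∈ Ioo (0:ℝ) Real.pi) (hα₁ : α₁ ∈ Ioo (0:ℝ) Real.pi)
    (hc : Chord γ s α s₁ α₁) : α₁ = α := by
  obtain ⟨ℓ, hℓ, e1, e2⟩ := hc
  have t0 := tangent_circle h hr hγ s
  have t1 := tangent_circle h hr hγ s₁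
  have hr' : (r:ℂ) ≠ 0 := by exact_mod_cast hr.ne'
  have hn : ‖γ s - p‖ = r := by
    have : γ s ∈ Metric.sphere p r := by rw [← hγ]; exact ⟨s, rfl⟩
    rwa [mem_sphere_iff_norm] at this
  have hu0 : γ s - p ≠ 0 := by
    intro h0; rw [h0, norm_zero] at hn; exact hr.ne hn
  rw [t0] at e1
  rw [t0, t1] at e2
  set u := γ s - p with hu
  have e3 : γ s₁ - p = u * (1 + ℓ * exp (α * I) * I / r) := by
    rw [e1]
    have : γ s = u + p := by rw [hu]; ring
    rw [this]; field_simp; ring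
  rw [e3] at e2
  have e4 : exp (α * I) = exp (-(α₁ * I)) * (1 + ℓ * exp (α * I) * I / r) := by
    have hI : (I:ℂ) ≠ 0 := I_ne_zero
    have : (I * u / r) ≠ 0 := div_ne_zero (mul_ne_zero hI hu0) hr'
    apply mul_right_cancel₀ this
    linear_combination e2
  have e5 : exp (α₁ * I) = exp (-(α * I)) + ℓ * I / r := by
    rw [exp_neg] at e4 ⊢
    have n1 := exp_ne_zero (α₁ * I)
    have n2 := exp_ne_zero (α * I)
    field_simp at e4 ⊢
    linear_combination e4
  have e6 := congrArg Complex.re e5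
  rw [add_re, exp_ofReal_mul_I_re] at e6
  have e7 : (exp (-(α * I))).re = Real.cos α := by
    have : -(α * I : ℂ) = ((-α : ℝ) : ℂ) * I := by push_cast; ring
    rw [this, exp_ofReal_mul_I_re, Real.cos_neg]
  have e8 : (ℓ * I / r : ℂ).re = 0 := by
    have : (ℓ * I / r : ℂ) = ((ℓ / r : ℝ) : ℂ) * I := by push_cast; ring
    rw [this, re_ofReal_mul, I_re, mul_zero]
  rw [e7, e8, add_zero] at e6
  exact Real.injOn_cos ⟨hα₁.1.le, hα₁.2.le⟩ ⟨hα.1.le, hα.2.le⟩ e6

lemma chord_circle_exists {p : ℂ} {r : ℝ} (hr : 0 < r) (hγ : range γ = Metric.sphere p r)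
    (s₁ α : ℝ) (hα : α ∈ Ioo (0:ℝ) Real.pi) : ∃ s, Chord γ s α s₁ α := by
  have hr' : (r:ℂ) ≠ 0 := by exact_mod_cast hr.ne'
  have hn : ‖γ s₁ - p‖ = r := by
    have : γ s₁ ∈ Metric.sphere p r := by rw [← hγ]; exact ⟨s₁, rfl⟩
    rwa [mem_sphere_iff_norm] at this
  obtain ⟨s, hs⟩ : ∃ s, γ s = p + exp (-(α * I)) ^ 2 * (γ s₁ - p) := by
    have : p + exp (-(α * I)) ^ 2 * (γ s₁ - p) ∈ Metric.sphere p r := by
      rw [mem_sphere_iff_norm, add_sub_cancel_left, norm_mul, norm_pow, hn]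
      have : ‖exp (-(α * I))‖ = 1 := by
        have : -(α * I : ℂ) = ((-α : ℝ) : ℂ) * I := by push_cast; ring
        rw [this]; exact norm_exp_ofReal_mul_I _
      rw [this]; ring
    rw [← hγ] at this
    exact this
  have t0 := tangent_circle h hr hγ s
  have t1 := tangent_circle h hr hγ s₁
  refine ⟨s, 2 * r * Real.sin α, mul_pos (mul_pos two_pos hr)
    (Real.sin_pos_of_pos_of_lt_pi hα.1 hα.2), ?_, ?_⟩
  · rw [t0, hs]
    have hsin : (Real.sin α : ℂ) = (exp (-(α * I)) - exp (α * I)) * I / 2 := by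
      rw [ofReal_sin, Complex.sin]; ring_nf
    push_cast at hsin ⊢
    rw [hsin]
    have n2 := exp_ne_zero (α * I)
    rw [exp_neg]
    field_simp
    ring_nf
    simp only [I_sq]
    ring
  · rw [t0, t1, hs]
    have n2 := exp_ne_zero (α * I)
    rw [exp_neg]
    field_simp
    ring

lemma T_circle {p : ℂ} {r : ℝ} (hr : 0 < r) (hγ : range γ = Metric.sphere p r)
    {T₁ : PhaseCylinder L → PhaseCylinder L} (hT : IsBilliardMap γ L T₁) (d : ℝ)
    (α : Ioo (0:ℝ) Real.pi) :
    (cylinderMap L d ∘ T₁) '' {w | w.2 = α} = {w | w.2 = α} := by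
  apply Subset.antisymm
  · rintro _ ⟨w, hw, rfl⟩
    obtain ⟨s, s₁, e1, e2, hc⟩ := hT w
    have := chord_circle_angle h hr hγ w.2.2 (T₁ w).2.2 hc
    change (T₁ w).2 = α
    rw [← hw]
    exact Subtype.ext this
  · rintro w hw
    obtain ⟨x, hx⟩ := QuotientAddGroup.mk_surjective w.1
    obtain ⟨s, hs⟩ := chord_circle_exists h hr hγ (x - d * Real.cot α) α α.2
    have := hT.eq_of_chord (α := α) (α₁ := α) h hs
    refine ⟨((s : AddCircle L), α), rfl, ?_⟩
    rw [Function.comp_apply, this, cylinderMap]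
    refine Prod.ext ?_ hw.symm
    simp only
    rw [← AddCircle.coe_add, sub_add_cancel]
    exact hx

lemma circle_integrable {p : ℂ} {r : ℝ} (hr : 0 < r) (hγ : range γ = Metric.sphere p r)
    {T₁ : PhaseCylinder L → PhaseCylinder L} (hT : IsBilliardMap γ L T₁) (d : ℝ) :
    IsIntegrable (cylinderMap L d ∘ T₁) := by
  have hL := h.length_pos
  let Φ : AddCircle (1:ℝ) × ℝ ≃ₜ PhaseCylinder L :=
    (AddCircle.homeomorphAddCircle 1 L one_ne_zero hL.ne').prodCongr hR
  refine ⟨Φ, fun t => ?_⟩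
  have hleaf : leaf Φ t = {w | w.2 = hR t} := by
    ext w
    constructor
    · rintro ⟨θ, rfl⟩
      rfl
    · intro hw
      refine ⟨(AddCircle.homeomorphAddCircle 1 L one_ne_zero hL.ne').symm w.1, ?_⟩
      refine Prod.ext ?_ hw.symm
      exact (AddCircle.homeomorphAddCircle 1 L one_ne_zero hL.ne').apply_symm_apply w.1
  refine ⟨⟨fun θ => Φ (θ, t), by fun_prop⟩, ?_, ?_, rfl, ?_⟩
  · intro θ θ' he
    have := congrArg Prod.fst (Φ.injective he)
    exact this
  · apply not_nullhomotopic hL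
    intro x
    change (AddCircle.homeomorphAddCircle 1 L one_ne_zero hL.ne') (x : AddCircle (1:ℝ)) = _
    rw [AddCircle.homeomorphAddCircle_apply_mk]
    simp
  · rw [hleaf]
    exact T_circle h hr hγ hT d (hR t)

lemma circle_graphs {p : ℂ} {r : ℝ} (hr : 0 < r) (hγ : range γ = Metric.sphere p r)
    {T₁ : PhaseCylinder L → PhaseCylinder L} (hT : IsBilliardMap γ L T₁) (d : ℝ) :
    HasInvariantGraphsNearBoundary (cylinderMap L d ∘ T₁) := by
  refine ⟨1, one_pos, fun z _ => ⟨ContinuousMap.const _ z.2, rfl, ?_⟩⟩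
  exact T_circle h hr hγ hT d z.2

omit h in
lemma near_of_integrable {T : PhaseCylinder L → PhaseCylinder L} (hT : IsIntegrable T) :
    IsIntegrableNearBoundary T := by
  obtain ⟨Φ, hΦ⟩ := hT
  exact ⟨1, Φ, one_pos, Φ.isOpenEmbedding, fun z _ => Φ.surjective z, hΦ⟩

lemma circle_of_near {T₁ : PhaseCylinder L → PhaseCylinder L} (hT : IsBilliardMap γ L T₁)
    {d : ℝ} (hd : 0 < d) (hF : IsIntegrableNearBoundary (cylinderMap L d ∘ T₁)) :
    ∃ (p : ℂ) (r : ℝ), 0 < r ∧ range γ = Metric.sphere p r := by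
  apply circle_of_cud h
  by_contra hcon
  push Not at hcon
  obtain ⟨b, c, hbc, hb, hc⟩ := both_signs h hcon
  exact not_foliated h hT hd hF b c hbc hb hc

lemma circle_of_graphs {T₁ : PhaseCylinder L → PhaseCylinder L} (hT : IsBilliardMap γ L T₁)
    {d : ℝ} (hd : 0 < d) (hF : HasInvariantGraphsNearBoundary (cylinderMap L d ∘ T₁)) :
    ∃ (p : ℂ) (r : ℝ), 0 < r ∧ range γ = Metric.sphere p r := by
  apply circle_of_cud h
  intro s
  by_contra hs
  obtain ⟨ε, hε, hg⟩ := hF
  have hL := h.length_pos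
  obtain ⟨δ3, hδ3, hδL, small⟩ := small_angles h ε hε
  -- the two angles of short chords from `γ s` are different
  obtain ⟨δ1, hδ1, hne⟩ : ∃ δ1 > 0, ∀ σ : ℝ, 0 < σ → σ < δ1 → σ < L →
      al γ s (s + σ) ≠ al1 γ s (s + σ) := by
    rcases lt_or_gt_of_ne hs with hs | hs
    · obtain ⟨δ, hδ, sgn⟩ := sign_neg h s hs
      exact ⟨δ, hδ, fun σ h1 h2 h3 =>
        (al1_lt_al h (by linarith) (by linarith) (sgn σ h1 h2)).ne'⟩
    · obtain ⟨δ, hδ, sgn⟩ := sign_pos h s hs
      exact ⟨δ, hδ, fun σ h1 h2 h3 =>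
        (al_lt_al1 h (by linarith) (by linarith) (sgn σ h1 h2)).ne⟩
  obtain ⟨σ0, hσ0, s1, s3⟩ : ∃ σ0 : ℝ, 0 < σ0 ∧ σ0 < δ1 ∧ σ0 ≤ δ3 :=
    ⟨min (δ1 / 2) δ3, by positivity, lt_of_le_of_lt (min_le_left _ _) (by linarith),
      min_le_right _ _⟩
  have hσL : σ0 < L := by linarith
  obtain ⟨k, hk⟩ := exists_nat_gt ((σ0 + d * Real.cot (al1 γ s (s + σ0))) / L)
  rw [div_lt_iff₀ hL] at hk
  obtain ⟨σ1, hσ1, hσ10, -, hcot⟩ := large_cot h (k * L / d) σ0 hσ0
  have hcont : ContinuousOn (fun σ => σ + d * Real.cot (al1 γ s (s + σ))) (Icc σ1 σ0) := by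
    have e : EqOn (fun σ => σ + d * Real.cot (al1 γ s (s + σ)))
        (fun σ => σ + d * ((A1 γ s (s + σ)).re / (-(A1 γ s (s + σ)).im))) (Icc σ1 σ0) := by
      intro σ hσ
      simp only
      rw [cot_al1 h (by linarith [hσ.1]) (by linarith [hσ.2])]
    refine ContinuousOn.congr ?_ e
    have cA1 : Continuous fun σ : ℝ => A1 γ s (s + σ) :=
      (continuous_A1 h).comp (f := fun σ => (s, s + σ)) (by fun_prop)
    refine ContinuousOn.add continuousOn_id (ContinuousOn.mul continuousOn_const ?_)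
    refine ContinuousOn.div (continuous_re.comp cA1).continuousOn
      (continuous_im.comp cA1).neg.continuousOn fun σ hσ => ?_
    have := A1_im h (s := s) (s₁ := s + σ) (by linarith [hσ.1]) (by linarith [hσ.2])
    linarith
  have hmem : (k * L : ℝ) ∈ Icc (σ0 + d * Real.cot (al1 γ s (s + σ0)))
      (σ1 + d * Real.cot (al1 γ s (s + σ1))) := by
    refine ⟨hk.le, ?_⟩
    have := hcot s
    rw [div_lt_iff₀ hd] at this
    linarith
  obtain ⟨σ, hσ, hσk⟩ := intermediate_value_Icc' hσ10.le hcont hmem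
  simp only at hσk
  have g1 : s < s + σ := by linarith [hσ.1]
  have g2 : s + σ < s + L := by linarith [hσ.2]
  obtain ⟨g, hg1, hg2⟩ := hg ((s : AddCircle L), ⟨al γ s (s + σ), al_mem h g1 g2⟩)
    (small s σ (by linarith [hσ.1]) (by linarith [hσ.2])).1
  have h3 := T_apply h hT d g1 g2
  have h4 : (cylinderMap L d ∘ T₁) ((s : AddCircle L), ⟨al γ s (s + σ), al_mem h g1 g2⟩)
      ∈ {w : PhaseCylinder L | w.2 = g w.1} := by
    rw [← hg2]
    exact ⟨_, hg1.symm, rfl⟩
  rw [h3] at h4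
  simp only [mem_ofPred_eq] at h4
  have h5 : ((s + σ + d * Real.cot (al1 γ s (s + σ)) : ℝ) : AddCircle L) = (s : AddCircle L) := by
    have : s + σ + d * Real.cot (al1 γ s (s + σ)) = s + (k:ℤ) * L := by
      push_cast
      linarith
    rw [this, coe_add_int_mul]
  rw [h5] at h4
  simp only at hg1
  rw [hg1] at h4
  exact hne σ (by linarith [hσ.1]) (by linarith [hσ.2]) (by linarith [hσ.2])
    (congrArg Subtype.val h4).symm

/-- every direction is the direction of a chord -/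
lemma exists_chord (s α : ℝ) (hα : α ∈ Ioo (0:ℝ) Real.pi) : ∃ s₁ ∈ Ioo s (s + L),
    al γ s s₁ = α := by
  have hL := h.length_pos
  obtain ⟨δ, hδ, hδL, small⟩ := small_angles h α hα.1
  obtain ⟨δ', hδ', hδL', small'⟩ := small_angles h (Real.pi - α) (by linarith [hα.2])
  have hcont : ContinuousOn (fun s₁ => al γ s s₁) (Ioo s (s + L)) := by
    intro s₁ hs₁
    have cA0 : Continuous fun s₁ : ℝ => A0 γ s s₁ :=
      (continuous_A0 h).comp (f := fun s₁ => (s, s₁)) (by fun_prop)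
    exact ((continuousAt_arg (Or.inr (A0_im h hs₁.1 hs₁.2).ne')).comp
      cA0.continuousAt).continuousWithinAt
  have himg := ((isPreconnected_Ioo (a := s) (b := s + L)).image _ hcont).ordConnected
  have m1 : s + δ ∈ Ioo s (s + L) := ⟨by linarith, by linarith⟩
  have m2 : s + L - δ' ∈ Ioo s (s + L) := ⟨by linarith, by linarith⟩
  have b1 : al γ s (s + δ) < α := (small s δ hδ le_rfl).1
  have b2 : α < al γ s (s + L - δ') := by
    have e1 : A0 γ s (s + L - δ') = - A1 γ (s - δ') (s - δ' + δ') := by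
      unfold A0 A1
      have : γ (s + L - δ') = γ (s - δ') := by
        have := h.periodic (s - δ')
        rw [← this]; congr 1; ring
      rw [this, sub_add_cancel]
      ring
    have h1 := (small' (s - δ') δ' hδ' le_rfl).2
    have h2 := A1_im h (s := s - δ') (s₁ := s - δ' + δ') (by linarith) (by linarith)
    unfold al
    rw [e1, arg_neg_eq_arg_add_pi_of_im_neg h2]
    unfold al1 at h1
    rw [arg_conj, if_neg] at h1
    · linarith
    · intro h3
      rw [arg_eq_pi_iff] at h3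
      linarith [h3.2]
  obtain ⟨s₁, hs₁, he⟩ := himg.out ⟨_, m1, rfl⟩ ⟨_, m2, rfl⟩ ⟨b1.le, b2.le⟩
  exact ⟨s₁, hs₁, he⟩

lemma exists_billiard : ∃ T₁ : PhaseCylinder L → PhaseCylinder L, IsBilliardMap γ L T₁ := by
  have : ∀ z : PhaseCylinder L, ∃ w : PhaseCylinder L, ∃ s s₁ : ℝ,
      (s : AddCircle L) = z.1 ∧ (s₁ : AddCircle L) = w.1 ∧ Chord γ s z.2 s₁ w.2 := by
    rintro ⟨z1, z2⟩
    obtain ⟨s, rfl⟩ := QuotientAddGroup.mk_surjective z1
    obtain ⟨s₁, hs₁, he⟩ := exists_chord h s z2 z2.2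
    refine ⟨((s₁ : AddCircle L), ⟨al1 γ s s₁, al1_mem h hs₁.1 hs₁.2⟩), s, s₁, rfl, rfl, ?_⟩
    have := chord_of h hs₁.1 hs₁.2
    rw [he] at this
    exact this
  choose T₁ hT₁ using this
  exact ⟨T₁, hT₁⟩

lemma unique_billiard {T₁ T₂ : PhaseCylinder L → PhaseCylinder L} (h1 : IsBilliardMap γ L T₁)
    (h2 : IsBilliardMap γ L T₂) : T₁ = T₂ := by
  funext z
  obtain ⟨s, s₁, e1, e2, hc⟩ := h1 z
  have := h2.eq_of_chord (α := z.2) (α₁ := (T₁ z).2) h hc
  rw [e1, Prod.mk.eta] at this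
  rw [this, e2]

theorem main (d : ℝ) (hd : 0 < d) :
    (∃! T₁ : PhaseCylinder L → PhaseCylinder L, IsBilliardMap γ L T₁) ∧
    ∀ T₁ : PhaseCylinder L → PhaseCylinder L, IsBilliardMap γ L T₁ →
      List.TFAE [IsIntegrable (cylinderMap L d ∘ T₁),
        IsIntegrableNearBoundary (cylinderMap L d ∘ T₁),
        HasInvariantGraphsNearBoundary (cylinderMap L d ∘ T₁),
        ∃ (p : ℂ) (r : ℝ), 0 < r ∧ Set.range γ = Metric.sphere p r] := by
  refine ⟨?_, fun T₁ hT => ?_⟩
  · obtain ⟨T₁, hT⟩ := exists_billiard h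
    exact ⟨T₁, hT, fun T₂ h2 => unique_billiard h h2 hT⟩
  · tfae_have 1 → 2 := near_of_integrable
    tfae_have 2 → 4 := fun hF => circle_of_near h hT hd hF
    tfae_have 4 → 1 := fun ⟨p, r, hr, hγ⟩ => circle_integrable h hr hγ hT d
    tfae_have 4 → 3 := fun ⟨p, r, hr, hγ⟩ => circle_graphs h hr hγ hT d
    tfae_have 3 → 4 := fun hF => circle_of_graphs h hT hd hF
    tfae_finish

end

end Pool.Agent.X146.Cap
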